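import Mathlib
import Pool.Agent.W923.BH.Tri

set_option autoImplicit false

/-!
# Borel codes
-/

namespace Pool.Agent.W923.BI

open Set MeasureTheory Pool.Agent.W923.BH

/-- The `n`-th child of a code: finite sequences are numbered by `en`, with inverse `de`. -/
def child (c : ℕ → ℕ) (n : ℕ) : ℕ → ℕ := fun i => c (en (n :: de i))

/-- `Codes U c A`: the sequence `c` is a Borel code, with respect to the basic sets `U k`, of the
set `A`.  If the value of `c` at the empty sequence is `k + 1` then `c` is a code of `U k`; if it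
is `0` then `c` is a code of the complement of the union of the sets coded by its children. -/
inductive Codes {Y : Type} (U : ℕ → Set Y) : (ℕ → ℕ) → Set Y → Prop
  | basic (c : ℕ → ℕ) (k : ℕ) (h : c (en []) = k + 1) : Codes U c (U k)
  | nor (c : ℕ → ℕ) (h : c (en []) = 0) (A : ℕ → Set Y) (hA : ∀ n, Codes U (child c n) (A n)) :
      Codes U c (⋃ n, A n)ᶜ

theorem child_en (c : ℕ → ℕ) (n : ℕ) (v : List ℕ) : child c n (en v) = c (en (n :: v)) := by
  simp [child]

/-- `E` is an evaluation of the code `c`, where `β k` is the truth value of the `k`-th basic set: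
`E (en u) = 1` means that the set coded at the node `u` contains the point. -/
def EvG (c : ℕ → ℕ) (β : ℕ → Prop) (E : ℕ → ℕ) : Prop :=
  ∀ u : List ℕ, (∀ k < u.length, c (en (u.take k)) = 0) →
    ((c (en u) = 0 → (E (en u) = 1 ↔ ∀ n, E (en (u ++ [n])) ≠ 1)) ∧
      ∀ k, c (en u) = k + 1 → (E (en u) = 1 ↔ β k))

theorem EvG_child {c E : ℕ → ℕ} {β : ℕ → Prop} (h0 : c (en []) = 0) (h : EvG c β E) (n : ℕ) :
    EvG (child c n) β (child E n) := by
  intro u hu
  have h1 := h (n :: u) (by
    intro k hk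
    rcases k with _ | k
    · simpa using h0
    · rw [List.take_succ_cons]
      have := hu k (by simp only [List.length_cons] at hk; omega)
      rwa [child_en] at this)
  simp only [child_en]
  exact h1

section

variable {Y : Type} {U : ℕ → Set Y}

theorem Codes.eval {c : ℕ → ℕ} {A : Set Y} (h : Codes U c A) :
    ∀ (p : Y) (E : ℕ → ℕ), EvG c (fun k => p ∈ U k) E → (E (en []) = 1 ↔ p ∈ A) := by
  induction h with
  | basic c k h =>
    intro p E hE
    exact (hE [] (by simp)).2 k h
  | nor c h A hA ih =>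
    intro p E hE
    have h1 := (hE [] (by simp)).1 h
    rw [h1]
    have h2 : ∀ n, (E (en ([] ++ [n])) = 1 ↔ p ∈ A n) := by
      intro n
      have h3 := ih n p (child E n) (EvG_child h hE n)
      rw [child_en] at h3
      exact h3
    simp only [ne_eq, h2, mem_compl_iff, mem_iUnion, not_exists]

/-- Gluing of evaluations. -/
def glueE (a : ℕ) (E : ℕ → ℕ → ℕ) (i : ℕ) : ℕ :=
  match de i with
  | [] => a
  | n :: u => E n (en u)

theorem glueE_nil (a : ℕ) (E : ℕ → ℕ → ℕ) : glueE a E (en []) = a := by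
  unfold glueE; rw [de_en]

theorem glueE_cons (a : ℕ) (E : ℕ → ℕ → ℕ) (n : ℕ) (u : List ℕ) :
    glueE a E (en (n :: u)) = E n (en u) := by
  unfold glueE; rw [de_en]

theorem child_glueE (a : ℕ) (E : ℕ → ℕ → ℕ) (n : ℕ) : child (glueE a E) n = E n := by
  funext i
  unfold child
  rw [glueE_cons, en_de]

theorem Codes.exists_eval {c : ℕ → ℕ} {A : Set Y} (h : Codes U c A) (p : Y) :
    ∃ E : ℕ → ℕ, EvG c (fun k => p ∈ U k) E := by
  classical
  induction h with
  | basic c k h =>
    refine ⟨fun _ => if p ∈ U k then 1 else 0, fun u hu => ?_⟩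
    rcases u with _ | ⟨a, u⟩
    · refine ⟨fun h2 => by omega, fun k' hk' => ?_⟩
      have : k = k' := by omega
      subst this
      simp
    · have := hu 0 (by simp)
      rw [List.take_zero] at this
      omega
  | nor c h A hA ih =>
    choose E hE using ih
    refine ⟨glueE (if p ∈ (⋃ n, A n)ᶜ then 1 else 0) E, fun u hu => ?_⟩
    rcases u with _ | ⟨a, u⟩
    · refine ⟨fun _ => ?_, fun k' hk' => by omega⟩
      rw [glueE_nil]
      have h1 : ∀ n, (glueE (if p ∈ (⋃ n, A n)ᶜ then 1 else 0) E (en ([] ++ [n])) = 1 ↔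
          p ∈ A n) := by
        intro n
        rw [List.nil_append, glueE_cons]
        exact (hA n).eval p (E n) (hE n)
      simp only [ne_eq, h1]
      simp
    · have h1 := hE a u (by
        intro k hk
        have := hu (k + 1) (by simp only [List.length_cons]; omega)
        rw [child_en]
        rwa [List.take_succ_cons] at this)
      simp only [List.cons_append, glueE_cons]
      rw [child_en] at h1
      exact h1

theorem Codes.unique {c : ℕ → ℕ} {A B : Set Y} (h : Codes U c A) (h' : Codes U c B) : A = B := by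
  ext p
  obtain ⟨E, hE⟩ := h.exists_eval p
  rw [← h.eval p E hE, ← h'.eval p E hE]

theorem Codes.wf {c : ℕ → ℕ} {A : Set Y} (h : Codes U c A) (w : ℕ → ℕ) :
    ∃ n, c (en (ini w n)) ≠ 0 := by
  induction h generalizing w with
  | basic c k h => exact ⟨0, by rw [ini_zero]; omega⟩
  | nor c h A hA ih =>
    obtain ⟨n, hn⟩ := ih (w 0) (Sh w)
    refine ⟨n + 1, ?_⟩
    rw [ini_succ]
    rwa [child_en] at hn

theorem exists_codes {c : ℕ → ℕ} (h : ∀ w : ℕ → ℕ, ∃ n, c (en (ini w n)) ≠ 0) :
    ∃ A : Set Y, Codes U c A := by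
  by_contra hcon
  have step : ∀ c : {c : ℕ → ℕ // ¬ ∃ A : Set Y, Codes U c A},
      c.1 (en []) = 0 ∧ ∃ n, ¬ ∃ A : Set Y, Codes U (child c.1 n) A := by
    rintro ⟨c, hc⟩
    have h0 : c (en []) = 0 := by
      by_contra h0
      obtain ⟨k, hk⟩ := Nat.exists_eq_succ_of_ne_zero h0
      exact hc ⟨_, Codes.basic c k hk⟩
    refine ⟨h0, ?_⟩
    by_contra h2
    push Not at h2
    choose A hA using h2
    exact hc ⟨_, Codes.nor c h0 A hA⟩
  choose h0 nx hnx using step
  let st : ℕ → {c : ℕ → ℕ // ¬ ∃ A : Set Y, Codes U c A} := fun n =>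
    Nat.rec ⟨c, hcon⟩ (fun _ s => ⟨child s.1 (nx s), hnx s⟩) n
  have hst : ∀ n, (st (n + 1)).1 = child (st n).1 (nx (st n)) := fun n => rfl
  have key : ∀ n u, c (en (ini (fun n => nx (st n)) n ++ u)) = (st n).1 (en u) := by
    intro n
    induction n with
    | zero => intro u; rfl
    | succ n ih =>
      intro u
      rw [ini_succ', List.append_assoc, ih, hst, child_en]
      rfl
  obtain ⟨n, hn⟩ := h fun n => nx (st n)
  have := key n []
  rw [List.append_nil, h0] at this
  exact hn this

/-! ### Coding with parameters -/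

theorem codes_glue {c : ℕ → ℕ → ℕ} {A : ℕ → Set Y} (h : ∀ n, Codes U (c n) (A n)) :
    Codes U (glueE 0 c) (⋃ n, A n)ᶜ := by
  refine Codes.nor _ (glueE_nil _ _) A fun n => ?_
  rw [child_glueE]
  exact h n

theorem exists_codes_empty : ∃ c : ℕ → ℕ, Codes U c ∅ := by
  have h1 : Codes U (fun _ => 0 + 1) (U 0) := Codes.basic _ 0 rfl
  have h2 : Codes U (glueE 0 fun _ => fun _ => 0 + 1) (⋃ _ : ℕ, U 0)ᶜ := codes_glue fun _ => h1
  rw [iUnion_const] at h2
  have h3 := codes_glue (c := fun n => if n = 0 then (fun _ => 0 + 1) else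
    (glueE 0 fun _ => fun _ => 0 + 1)) (A := fun n => if n = 0 then U 0 else (U 0)ᶜ) (by
      intro n
      by_cases hn : n = 0
      · simp only [hn, if_true]; exact h1
      · simp only [hn, if_false]; exact h2)
  have h4 : (∅ : Set Y) = (⋃ n : ℕ, if n = 0 then U 0 else (U 0)ᶜ)ᶜ := by
    ext p
    simp only [mem_empty_iff_false, mem_compl_iff, mem_iUnion, not_exists, false_iff]
    intro h
    by_cases hp : p ∈ U 0
    · exact h 0 (by simpa using hp)
    · exact h 1 (by simpa using hp)
  rw [h4]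
  exact ⟨_, h3⟩

theorem exists_codes_univ : ∃ c : ℕ → ℕ, Codes U c univ := by
  obtain ⟨c, hc⟩ := exists_codes_empty (U := U)
  have h := codes_glue (c := fun _ => c) (A := fun _ => ∅) fun _ => hc
  rw [iUnion_empty, compl_empty] at h
  exact ⟨_, h⟩

variable {Ω : Type} [MeasurableSpace Ω]

theorem meas_glueE {a : Ω → ℕ} (ha : Measurable a) {κ : ℕ → Ω → ℕ → ℕ}
    (hκ : ∀ n, Measurable (κ n)) : Measurable fun ω => glueE (a ω) fun n => κ n ω := by
  rw [measurable_pi_iff]
  intro i
  unfold glueE
  rcases h : de i with _ | ⟨n, u⟩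
  · exact ha
  · exact (measurable_pi_apply _).comp (hκ n)

/-- Sets with a measurable family of codes for their sections. -/
def PC (U : ℕ → Set Y) (G : Set (Ω × Y)) : Prop :=
  ∃ κ : Ω → ℕ → ℕ, Measurable κ ∧ ∀ ω, Codes U (κ ω) {y | (ω, y) ∈ G}

theorem PC_nor {G : ℕ → Set (Ω × Y)} (h : ∀ n, PC U (G n)) : PC U (⋃ n, G n)ᶜ := by
  choose κ hκ h2 using h
  refine ⟨fun ω => glueE 0 fun n => κ n ω, meas_glueE measurable_const hκ, fun ω => ?_⟩
  have h3 := codes_glue fun n => h2 n ω
  convert h3 using 1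
  ext y
  simp

theorem PC_compl {G : Set (Ω × Y)} (h : PC U G) : PC U Gᶜ := by
  have := PC_nor (U := U) (G := fun _ => G) fun _ => h
  rwa [iUnion_const] at this

theorem PC_iUnion {G : ℕ → Set (Ω × Y)} (h : ∀ n, PC U (G n)) : PC U (⋃ n, G n) := by
  have := PC_compl (PC_nor h)
  rwa [compl_compl] at this

theorem PC_param {A : Set Ω} (hA : MeasurableSet A) : PC U {p : Ω × Y | p.1 ∈ A} := by
  classical
  obtain ⟨c0, h0⟩ := exists_codes_empty (U := U)
  obtain ⟨c1, h1⟩ := exists_codes_univ (U := U)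
  refine ⟨fun ω => if ω ∈ A then c1 else c0, Measurable.ite hA measurable_const measurable_const,
    fun ω => ?_⟩
  by_cases h : ω ∈ A
  · simp only [mem_ofPred_eq, h, if_true]
    exact h1
  · simp only [mem_ofPred_eq, h, if_false]
    exact h0

/-- The `σ`-algebra of sets with a measurable family of codes for their sections. -/
@[reducible] def pcAlg (U : ℕ → Set Y) : MeasurableSpace (Ω × Y) where
  MeasurableSet' := PC U
  measurableSet_empty := by
    have := PC_param (U := U) (Ω := Ω) (A := ∅) MeasurableSet.empty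
    simpa using this
  measurableSet_compl _ h := PC_compl h
  measurableSet_iUnion _ h := PC_iUnion h

theorem PC_of_measurable [mY : MeasurableSpace Y] (hU : mY = MeasurableSpace.generateFrom (range U))
    {G : Set (Ω × Y)} (hG : MeasurableSet G) : PC U G := by
  have hle : (MeasurableSpace.prod inferInstance mY : MeasurableSpace (Ω × Y)) ≤ pcAlg U := by
    refine sup_le ?_ ?_
    · rintro _ ⟨A, hA, rfl⟩
      exact PC_param hA
    · rw [hU, MeasurableSpace.comap_generateFrom]
      refine MeasurableSpace.generateFrom_le ?_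
      rintro _ ⟨_, ⟨k, rfl⟩, rfl⟩
      exact ⟨fun _ _ => k + 1, measurable_const, fun ω => Codes.basic _ k rfl⟩
  exact hle _ hG

/-! ### Measurability of the evaluation relation -/

theorem meas_EvG {C E : Ω → ℕ → ℕ} {β : Ω → ℕ → Prop} (hC : Measurable C) (hE : Measurable E)
    (hβ : ∀ k, MeasurableSet {ω | β ω k}) : MeasurableSet {ω | EvG (C ω) (β ω) (E ω)} := by
  have hC' : ∀ i j : ℕ, MeasurableSet {ω | C ω i = j} := fun i j =>
    ((measurable_pi_apply i).comp hC) (measurableSet_singleton j)
  have hE' : ∀ i j : ℕ, MeasurableSet {ω | E ω i = j} := fun i j =>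
    ((measurable_pi_apply i).comp hE) (measurableSet_singleton j)
  have hiff : ∀ A B : Ω → Prop, MeasurableSet {ω | A ω} → MeasurableSet {ω | B ω} →
      MeasurableSet {ω | A ω ↔ B ω} := by
    intro A B hA hB
    have : {ω | A ω ↔ B ω} = ({ω | A ω} ∩ {ω | B ω}) ∪ ({ω | A ω}ᶜ ∩ {ω | B ω}ᶜ) := by
      ext ω
      simp only [mem_ofPred_eq, mem_union, mem_inter_iff, mem_compl_iff]
      tauto
    rw [this]
    exact (hA.inter hB).union (hA.compl.inter hB.compl)
  unfold EvG
  simp only [Set.ofPred_forall]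
  refine MeasurableSet.iInter fun u => ?_
  refine MeasurableSet.imp ?_ ?_
  · simp only [Set.ofPred_forall]
    exact MeasurableSet.iInter fun k => MeasurableSet.iInter fun _ => hC' _ _
  · rw [Set.ofPred_and]
    refine MeasurableSet.inter ?_ ?_
    · refine MeasurableSet.imp (hC' _ _) (hiff _ _ (hE' _ _) ?_)
      simp only [Set.ofPred_forall]
      exact MeasurableSet.iInter fun n => (hE' _ _).compl
    · simp only [Set.ofPred_forall]
      refine MeasurableSet.iInter fun k => ?_
      exact MeasurableSet.imp (hC' _ _) (hiff _ _ (hE' _ _) (hβ k))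

end

end Pool.Agent.W923.BI
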