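import Mathlib
import Pool.Agent.W923.BI.Codes

set_option autoImplicit false

/-!
# Evaluation hierarchies along a tree
-/

namespace Pool.Agent.W923.BI

open Set MeasureTheory Filter Topology Pool.Agent.W923.BH

theorem length_ini (w : ℕ → ℕ) (n : ℕ) : (ini w n).length = n := by simp [ini]

theorem ini_eq_iff {v v' : ℕ → ℕ} {k : ℕ} : ini v k = ini v' k ↔ ∀ i < k, v i = v' i := by
  constructor
  · intro h i hi
    have h1 : (ini v k)[i]? = (ini v' k)[i]? := by rw [h]
    simpa [ini, hi] using h1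
  · intro h
    induction k with
    | zero => rfl
    | succ k ih =>
      rw [ini_succ', ini_succ', ih fun i hi => h i (by omega), h k (by omega)]

theorem ini_take {w : ℕ → ℕ} {n m : ℕ} (h : n ≤ m) : (ini w m).take n = ini w n := by
  unfold ini
  rw [← List.map_take, List.take_range]
  congr 2
  omega

/-- The tree of the closed set `F` at `(x, y)`. -/
def Tre (F : Set ((ℕ → ℕ) × (ℕ → ℕ) × (ℕ → ℕ))) (x y : ℕ → ℕ) (s : List ℕ) : Prop :=
  ∃ r ∈ F, ini r.1 s.length = ini x s.length ∧ ini r.2.1 s.length = ini y s.length ∧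
    ini r.2.2 s.length = s

theorem Tre_parent {F : Set ((ℕ → ℕ) × (ℕ → ℕ) × (ℕ → ℕ))} {x y : ℕ → ℕ} {s : List ℕ} {i : ℕ}
    (h : Tre F x y (s ++ [i])) : Tre F x y s := by
  obtain ⟨r, hr, h1, h2, h3⟩ := h
  have hl : (s ++ [i]).length = s.length + 1 := by simp
  rw [hl] at h1 h2 h3
  refine ⟨r, hr, ?_, ?_, ?_⟩
  · have := congrArg (List.take s.length) h1
    rwa [ini_take (by omega), ini_take (by omega)] at this
  · have := congrArg (List.take s.length) h2
    rwa [ini_take (by omega), ini_take (by omega)] at this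
  · have := congrArg (List.take s.length) h3
    rwa [ini_take (by omega), List.take_left' rfl] at this

theorem Tre_of_mem {F : Set ((ℕ → ℕ) × (ℕ → ℕ) × (ℕ → ℕ))} {x y w : ℕ → ℕ} (h : (x, y, w) ∈ F)
    (n : ℕ) : Tre F x y (ini w n) := by
  refine ⟨(x, y, w), h, rfl, rfl, ?_⟩
  rw [length_ini]

theorem mem_of_Tre {F : Set ((ℕ → ℕ) × (ℕ → ℕ) × (ℕ → ℕ))} (hF : IsClosed F) {x y w : ℕ → ℕ}
    (h : ∀ n, Tre F x y (ini w n)) : (x, y, w) ∈ F := by
  unfold Tre at h
  simp only [length_ini] at h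
  choose r hr h1 h2 h3 using h
  have conv : ∀ (g : ℕ → ℕ → ℕ) (v : ℕ → ℕ), (∀ n, ini (g n) n = ini v n) →
      Tendsto g atTop (𝓝 v) := by
    intro g v hg
    rw [tendsto_pi_nhds]
    intro i
    refine tendsto_const_nhds.congr' ?_
    filter_upwards [eventually_gt_atTop i] with k hk
    exact (ini_eq_iff.1 (hg k) i hk).symm
  have h4 : Tendsto r atTop (𝓝 (x, y, w)) :=
    (conv _ _ h1).prodMk_nhds ((conv _ _ h2).prodMk_nhds (conv _ _ h3))
  exact hF.mem_of_tendsto h4 (Eventually.of_forall hr)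

theorem meas_ini_eq {Ω : Type} [MeasurableSpace Ω] {X : Ω → ℕ → ℕ} (hX : Measurable X) (n : ℕ)
    (v : List ℕ) : MeasurableSet {ω | ini (X ω) n = v} :=
  hX (isOpen_ini continuous_id n v).measurableSet

theorem meas_Tre (F : Set ((ℕ → ℕ) × (ℕ → ℕ) × (ℕ → ℕ))) {Ω : Type} [MeasurableSpace Ω]
    {X Y : Ω → ℕ → ℕ} (hX : Measurable X) (hY : Measurable Y) (s : List ℕ) :
    MeasurableSet {ω | Tre F (X ω) (Y ω) s} := by
  have : {ω | Tre F (X ω) (Y ω) s} = ⋃ u : List ℕ, ⋃ v : List ℕ,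
      ({ω | ini (X ω) s.length = u} ∩ {ω | ini (Y ω) s.length = v}) ∩
        {_ω | ∃ r ∈ F, ini r.1 s.length = u ∧ ini r.2.1 s.length = v ∧
          ini r.2.2 s.length = s} := by
    ext ω
    simp only [mem_ofPred_eq, mem_iUnion, mem_inter_iff, Tre]
    constructor
    · rintro ⟨r, hr, h1, h2, h3⟩
      exact ⟨_, _, ⟨rfl, rfl⟩, r, hr, h1, h2, h3⟩
    · rintro ⟨u, v, ⟨rfl, rfl⟩, r, hr, h1, h2, h3⟩
      exact ⟨r, hr, h1, h2, h3⟩
  rw [this]
  refine MeasurableSet.iUnion fun u => MeasurableSet.iUnion fun v => ?_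
  exact ((meas_ini_eq hX _ _).inter (meas_ini_eq hY _ _)).inter (MeasurableSet.const _)

/-- A tree without infinite branches is well-founded. -/
theorem wf_of_no_branch {T : List ℕ → Prop} (hT : ∀ s i, T (s ++ [i]) → T s)
    (hwf : ∀ w : ℕ → ℕ, ∃ n, ¬ T (ini w n)) :
    WellFounded fun s' s : List ℕ => T s' ∧ ∃ i, s' = s ++ [i] := by
  rw [wellFounded_iff_isEmpty_descending_chain]
  refine ⟨fun ⟨f, hf⟩ => ?_⟩
  have hlen : ∀ n, n ≤ (f n).length := by
    intro n
    induction n with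
    | zero => omega
    | succ n ih =>
      obtain ⟨-, i, hi⟩ := hf n
      rw [hi]
      simp only [List.length_append, List.length_singleton]
      omega
  have htake : ∀ k n m, n ≤ m → k ≤ (f n).length → (f m).take k = (f n).take k := by
    intro k n m hnm hk
    induction m, hnm using Nat.le_induction with
    | base => rfl
    | succ m hm ih =>
      obtain ⟨-, i, hi⟩ := hf m
      have h1 : k ≤ (f m).length := by
        rcases Nat.lt_or_ge (f m).length k with h | h
        · have := congrArg List.length ih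
          simp only [List.length_take] at this
          omega
        · exact h
      rw [hi, List.take_append_of_le_length h1, ih]
  have hmono : ∀ (u : List ℕ) (k : ℕ), T u → T (u.take k) := by
    intro u k
    induction u using List.reverseRecOn with
    | nil => simp
    | append_singleton u i ih =>
      intro h
      rcases Nat.lt_or_ge u.length k with hk | hk
      · rwa [List.take_of_length_le (by simp only [List.length_append, List.length_singleton]; omega)]
      · rw [List.take_append_of_le_length hk]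
        exact ih (hT _ _ h)
  let w : ℕ → ℕ := fun i => (f (i + 1)).getD i 0
  have hw : ∀ n, ini w n = (f n).take n := by
    intro n
    induction n with
    | zero => simp [ini]
    | succ n ih =>
      have h1 : n < (f (n + 1)).length := hlen (n + 1)
      have h2 : w n = (f (n + 1))[n] := List.getD_eq_getElem _ _ h1
      rw [ini_succ', ih, h2, ← List.take_append_getElem h1]
      rw [htake n n (n + 1) (by omega) (hlen n)]
  obtain ⟨n, hn⟩ := hwf w
  apply hn
  have h3 : ini w n = (f (n + 1)).take n := by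
    rw [hw, htake n n (n + 1) (by omega) (hlen n)]
  rw [h3]
  exact hmono _ _ (hf n).1

/-- Index of a triple. -/
def nd (s t : List ℕ) (b : ℕ) : ℕ := Nat.pair (Nat.pair (en s) (en t)) b

/-- `H` is an evaluation hierarchy along the tree `T` of the code `z` at the point `z`. -/
def HR (T : List ℕ → Prop) (z H : ℕ → ℕ) : Prop :=
  ∀ s t : List ℕ,
    (H (nd s t 1) = 1 ↔ T s ∧ ((∃ k, z (en t) = k + 1 ∧ bas k z) ∨
      (z (en t) = 0 ∧ ∀ n, ∃ i, H (nd (s ++ [i]) (t ++ [n]) 0) = 1))) ∧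
    (H (nd s t 0) = 1 ↔ T s ∧ ((∃ k, z (en t) = k + 1 ∧ ¬ bas k z) ∨
      (z (en t) = 0 ∧ ∃ n, ∃ i, H (nd (s ++ [i]) (t ++ [n]) 1) = 1)))

/-- The subcode at a node. -/
def sub (z : ℕ → ℕ) (t : List ℕ) : ℕ → ℕ := fun i => z (en (t ++ de i))

theorem sub_nil (z : ℕ → ℕ) : sub z [] = z := by
  funext i; simp [sub]

theorem child_sub (z : ℕ → ℕ) (t : List ℕ) (n : ℕ) : child (sub z t) n = sub z (t ++ [n]) := by
  funext i
  simp [child, sub]

theorem sub_root (z : ℕ → ℕ) (t : List ℕ) : sub z t (en []) = z (en t) := by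
  simp [sub]

/-- The basic clopen sets of the Baire space. -/
abbrev UB (k : ℕ) : Set (ℕ → ℕ) := {y | bas k y}

/-- Along an infinite branch of the tree the hierarchy is correct. -/
theorem HR_correct {T : List ℕ → Prop} {z H w : ℕ → ℕ} (hH : HR T z H)
    (hw : ∀ n, T (ini w n)) {c : ℕ → ℕ} {A : Set (ℕ → ℕ)} (hc : Codes UB c A) :
    ∀ t, c = sub z t → (∀ s, H (nd s t 1) = 1 → z ∈ A) ∧ (∀ s, H (nd s t 0) = 1 → z ∉ A) ∧
      (z ∈ A → ∀ m, H (nd (ini w m) t 1) = 1) ∧ (z ∉ A → ∀ m, H (nd (ini w m) t 0) = 1) := by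
  induction hc with
  | basic c k h =>
    intro t ht
    rw [ht, sub_root] at h
    refine ⟨fun s hs => ?_, fun s hs => ?_, fun hz m => ?_, fun hz m => ?_⟩
    · obtain ⟨-, ⟨k', h1, h2⟩ | ⟨h1, -⟩⟩ := (hH s t).1.1 hs
      · obtain rfl : k = k' := by omega
        exact h2
      · omega
    · obtain ⟨-, ⟨k', h1, h2⟩ | ⟨h1, -⟩⟩ := (hH s t).2.1 hs
      · obtain rfl : k = k' := by omega
        exact h2
      · omega
    · exact (hH _ t).1.2 ⟨hw m, Or.inl ⟨k, h, hz⟩⟩
    · exact (hH _ t).2.2 ⟨hw m, Or.inl ⟨k, h, hz⟩⟩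
  | nor c h A hA ih =>
    intro t ht
    have ih' := fun n => ih n (t ++ [n]) (by rw [ht, child_sub])
    rw [ht, sub_root] at h
    simp only [mem_compl_iff, mem_iUnion, not_exists, not_forall, not_not]
    refine ⟨fun s hs n => ?_, fun s hs => ?_, fun hz m => ?_, fun hz m => ?_⟩
    · obtain ⟨-, ⟨k', h1, h2⟩ | ⟨-, h1⟩⟩ := (hH s t).1.1 hs
      · omega
      · obtain ⟨i, hi⟩ := h1 n
        exact (ih' n).2.1 _ hi
    · obtain ⟨-, ⟨k', h1, h2⟩ | ⟨-, n, i, hi⟩⟩ := (hH s t).2.1 hs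
      · omega
      · exact ⟨n, (ih' n).1 _ hi⟩
    · refine (hH _ t).1.2 ⟨hw m, Or.inr ⟨h, fun n => ⟨w m, ?_⟩⟩⟩
      rw [← ini_succ']
      exact (ih' n).2.2.2 (hz n) (m + 1)
    · obtain ⟨n, hn⟩ := hz
      refine (hH _ t).2.2 ⟨hw m, Or.inr ⟨h, n, w m, ?_⟩⟩
      rw [← ini_succ']
      exact (ih' n).2.2.1 hn (m + 1)

/-- The least evaluation hierarchy. -/
inductive Val (T : List ℕ → Prop) (z : ℕ → ℕ) : Bool → List ℕ → List ℕ → Prop
  | leafT (s t : List ℕ) (k : ℕ) (hs : T s) (ht : z (en t) = k + 1) (hb : bas k z) :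
      Val T z true s t
  | leafF (s t : List ℕ) (k : ℕ) (hs : T s) (ht : z (en t) = k + 1) (hb : ¬ bas k z) :
      Val T z false s t
  | nodeT (s t : List ℕ) (hs : T s) (ht : z (en t) = 0) (f : ℕ → ℕ)
      (hf : ∀ n, Val T z false (s ++ [f n]) (t ++ [n])) : Val T z true s t
  | nodeF (s t : List ℕ) (hs : T s) (ht : z (en t) = 0) (n i : ℕ)
      (hf : Val T z true (s ++ [i]) (t ++ [n])) : Val T z false s t

theorem Val_true {T : List ℕ → Prop} {z : ℕ → ℕ} {s t : List ℕ} : Val T z true s t ↔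
    T s ∧ ((∃ k, z (en t) = k + 1 ∧ bas k z) ∨
      (z (en t) = 0 ∧ ∀ n, ∃ i, Val T z false (s ++ [i]) (t ++ [n]))) := by
  constructor
  · intro h
    cases h with
    | leafT _ _ k hs ht hb => exact ⟨hs, Or.inl ⟨k, ht, hb⟩⟩
    | nodeT _ _ hs ht f hf => exact ⟨hs, Or.inr ⟨ht, fun n => ⟨f n, hf n⟩⟩⟩
  · rintro ⟨hs, ⟨k, hk, hb⟩ | ⟨ht, h⟩⟩
    · exact Val.leafT s t k hs hk hb
    · choose f hf using h
      exact Val.nodeT s t hs ht f hf

theorem Val_false {T : List ℕ → Prop} {z : ℕ → ℕ} {s t : List ℕ} : Val T z false s t ↔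
    T s ∧ ((∃ k, z (en t) = k + 1 ∧ ¬ bas k z) ∨
      (z (en t) = 0 ∧ ∃ n, ∃ i, Val T z true (s ++ [i]) (t ++ [n]))) := by
  constructor
  · intro h
    cases h with
    | leafF _ _ k hs ht hb => exact ⟨hs, Or.inl ⟨k, ht, hb⟩⟩
    | nodeF _ _ hs ht n i hf => exact ⟨hs, Or.inr ⟨ht, n, i, hf⟩⟩
  · rintro ⟨hs, ⟨k, hk, hb⟩ | ⟨ht, n, i, h⟩⟩
    · exact Val.leafF s t k hs hk hb
    · exact Val.nodeF s t hs ht n i h

theorem meas_bas (k : ℕ) : MeasurableSet {z : ℕ → ℕ | bas k z} :=
  (measurable_pi_apply (X := fun _ : ℕ => ℕ) k.unpair.1) (measurableSet_singleton k.unpair.2)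

theorem meas_Val {T : List ℕ → Prop}
    (hT : WellFounded fun s' s : List ℕ => T s' ∧ ∃ i, s' = s ++ [i]) (s : List ℕ) :
    ∀ t b, MeasurableSet {z : ℕ → ℕ | Val T z b s t} := by
  induction s using hT.induction with
  | h s ih =>
    have hz : ∀ i j : ℕ, MeasurableSet {z : ℕ → ℕ | z i = j} := fun i j =>
      (measurable_pi_apply (X := fun _ : ℕ => ℕ) i) (measurableSet_singleton j)
    have ih' : ∀ i t b, MeasurableSet {z : ℕ → ℕ | Val T z b (s ++ [i]) t} := by
      intro i t b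
      by_cases hi : T (s ++ [i])
      · exact ih _ ⟨hi, i, rfl⟩ t b
      · have : {z : ℕ → ℕ | Val T z b (s ++ [i]) t} = ∅ := by
          ext z
          simp only [mem_ofPred_eq, mem_empty_iff_false, iff_false]
          intro h
          cases b
          · exact hi (Val_false.1 h).1
          · exact hi (Val_true.1 h).1
        rw [this]
        exact MeasurableSet.empty
    intro t b
    cases b
    · simp only [Val_false, Set.ofPred_and, Set.ofPred_or, Set.ofPred_exists]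
      refine MeasurableSet.inter (MeasurableSet.const _) (MeasurableSet.union ?_ ?_)
      · exact MeasurableSet.iUnion fun k => (hz _ _).inter (meas_bas k).compl
      · refine (hz _ _).inter ?_
        exact MeasurableSet.iUnion fun n => MeasurableSet.iUnion fun i => ih' _ _ _
    · simp only [Val_true, Set.ofPred_and, Set.ofPred_or, Set.ofPred_exists, Set.ofPred_forall]
      refine MeasurableSet.inter (MeasurableSet.const _) (MeasurableSet.union ?_ ?_)
      · exact MeasurableSet.iUnion fun k => (hz _ _).inter (meas_bas k)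
      · refine (hz _ _).inter ?_
        exact MeasurableSet.iInter fun n => MeasurableSet.iUnion fun i => ih' _ _ _

/-- The least hierarchy as a sequence. -/
noncomputable def HV (T : List ℕ → Prop) (z : ℕ → ℕ) (i : ℕ) : ℕ :=
  open Classical in
  if Val T z (decide (i.unpair.2 = 1)) (de i.unpair.1.unpair.1) (de i.unpair.1.unpair.2)
    then 1 else 0

theorem HV_one {T : List ℕ → Prop} {z : ℕ → ℕ} {s t : List ℕ} :
    HV T z (nd s t 1) = 1 ↔ Val T z true s t := by
  simp [HV, nd]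

theorem HV_zero {T : List ℕ → Prop} {z : ℕ → ℕ} {s t : List ℕ} :
    HV T z (nd s t 0) = 1 ↔ Val T z false s t := by
  simp [HV, nd]

theorem HR_HV (T : List ℕ → Prop) (z : ℕ → ℕ) : HR T z (HV T z) := by
  intro s t
  simp only [HV_one, HV_zero]
  exact ⟨Val_true, Val_false⟩

theorem meas_HV {T : List ℕ → Prop}
    (hT : WellFounded fun s' s : List ℕ => T s' ∧ ∃ i, s' = s ++ [i]) : Measurable (HV T) := by
  classical
  rw [measurable_pi_iff]
  intro i
  exact Measurable.ite (meas_Val hT _ _ _) measurable_const measurable_const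

theorem meas_HR {Ω : Type} [MeasurableSpace Ω] {T : Ω → List ℕ → Prop} {Z H : Ω → ℕ → ℕ}
    (hT : ∀ s, MeasurableSet {ω | T ω s}) (hZ : Measurable Z) (hH : Measurable H) :
    MeasurableSet {ω | HR (T ω) (Z ω) (H ω)} := by
  have hC' : ∀ i j : ℕ, MeasurableSet {ω | Z ω i = j} := fun i j =>
    ((measurable_pi_apply i).comp hZ) (measurableSet_singleton j)
  have hE' : ∀ i j : ℕ, MeasurableSet {ω | H ω i = j} := fun i j =>
    ((measurable_pi_apply i).comp hH) (measurableSet_singleton j)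
  have hiff : ∀ A B : Ω → Prop, MeasurableSet {ω | A ω} → MeasurableSet {ω | B ω} →
      MeasurableSet {ω | A ω ↔ B ω} := by
    intro A B hA hB
    have : {ω | A ω ↔ B ω} = ({ω | A ω} ∩ {ω | B ω}) ∪ ({ω | A ω}ᶜ ∩ {ω | B ω}ᶜ) := by
      ext ω
      simp only [mem_ofPred_eq, mem_union, mem_inter_iff, mem_compl_iff]
      tauto
    rw [this]
    exact (hA.inter hB).union (hA.compl.inter hB.compl)
  unfold HR
  simp only [Set.ofPred_forall]
  refine MeasurableSet.iInter fun s => MeasurableSet.iInter fun t => ?_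
  rw [Set.ofPred_and]
  refine MeasurableSet.inter (hiff _ _ (hE' _ _) ?_) (hiff _ _ (hE' _ _) ?_)
  · simp only [Set.ofPred_and, Set.ofPred_or, Set.ofPred_exists, Set.ofPred_forall]
    refine MeasurableSet.inter (hT s) (MeasurableSet.union ?_ ?_)
    · exact MeasurableSet.iUnion fun k => (hC' _ _).inter (hZ (meas_bas k))
    · refine (hC' _ _).inter ?_
      exact MeasurableSet.iInter fun n => MeasurableSet.iUnion fun i => hE' _ _
  · simp only [Set.ofPred_and, Set.ofPred_or, Set.ofPred_exists]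
    refine MeasurableSet.inter (hT s) (MeasurableSet.union ?_ ?_)
    · exact MeasurableSet.iUnion fun k => (hC' _ _).inter (hZ (meas_bas k)).compl
    · refine (hC' _ _).inter ?_
      exact MeasurableSet.iUnion fun n => MeasurableSet.iUnion fun i => hE' _ _

/-- Even part of a sequence. -/
def evn (q : ℕ → ℕ) (i : ℕ) : ℕ := q (2 * i)

/-- Odd part of a sequence. -/
def odd (q : ℕ → ℕ) (i : ℕ) : ℕ := q (2 * i + 1)

/-- Joining two sequences. -/
def jn (a b : ℕ → ℕ) (i : ℕ) : ℕ := if i % 2 = 0 then a (i / 2) else b (i / 2)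

theorem evn_jn (a b : ℕ → ℕ) : evn (jn a b) = a := by
  funext i
  simp [evn, jn]

theorem odd_jn (a b : ℕ → ℕ) : odd (jn a b) = b := by
  funext i
  have h1 : (2 * i + 1) % 2 = 1 := by omega
  have h2 : (2 * i + 1) / 2 = i := by omega
  simp [odd, jn, h1, h2]

theorem meas_evn : Measurable evn := measurable_pi_iff.2 fun i => measurable_pi_apply (2 * i)

theorem meas_odd : Measurable odd := measurable_pi_iff.2 fun i => measurable_pi_apply (2 * i + 1)

theorem meas_jn {Ω : Type} [MeasurableSpace Ω] {A B : Ω → ℕ → ℕ} (hA : Measurable A)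
    (hB : Measurable B) : Measurable fun ω => jn (A ω) (B ω) := by
  rw [measurable_pi_iff]
  intro i
  unfold jn
  by_cases h : i % 2 = 0
  · simp only [if_pos h]
    exact (measurable_pi_apply _).comp hA
  · simp only [if_neg h]
    exact (measurable_pi_apply _).comp hB

/-- The Borel set whose sections have Borel uniformizations exactly over the `Σ¹₂` set. -/
def PF (F : Set ((ℕ → ℕ) × (ℕ → ℕ) × (ℕ → ℕ))) : Set ((ℕ → ℕ) × (ℕ → ℕ) × (ℕ → ℕ)) :=
  {r | HR (Tre F r.1 (evn r.2.2)) r.2.1 (odd r.2.2)}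

theorem meas_PF (F : Set ((ℕ → ℕ) × (ℕ → ℕ) × (ℕ → ℕ))) : MeasurableSet (PF F) := by
  unfold PF
  have h3 : Measurable fun r : (ℕ → ℕ) × (ℕ → ℕ) × (ℕ → ℕ) => r.2.2 :=
    measurable_snd.comp measurable_snd
  refine meas_HR (fun s => ?_) (measurable_fst.comp measurable_snd) (meas_odd.comp h3)
  exact meas_Tre F measurable_fst (meas_evn.comp h3) s

theorem PF_unif {F : Set ((ℕ → ℕ) × (ℕ → ℕ) × (ℕ → ℕ))} (hF : IsClosed F) {x y : ℕ → ℕ}
    (h : ∀ w, (x, y, w) ∉ F) :
    ∃ Ψ : (ℕ → ℕ) → ℕ → ℕ, Measurable Ψ ∧ ∀ z, (x, z, Ψ z) ∈ PF F := by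
  have hwf := wf_of_no_branch (T := Tre F x y) (fun s i hs => Tre_parent hs) (fun w => by
    by_contra hcon
    push Not at hcon
    exact h w (mem_of_Tre hF hcon))
  refine ⟨fun z => jn y (HV (Tre F x y) z), meas_jn measurable_const (meas_HV hwf), fun z => ?_⟩
  change HR (Tre F x (evn (jn y (HV (Tre F x y) z)))) z (odd (jn y (HV (Tre F x y) z)))
  rw [evn_jn, odd_jn]
  exact HR_HV _ _

theorem PF_no_unif {F : Set ((ℕ → ℕ) × (ℕ → ℕ) × (ℕ → ℕ))} {x : ℕ → ℕ}
    {Ψ : (ℕ → ℕ) → ℕ → ℕ} (hΨ : Measurable Ψ) (h : ∀ z, (x, z, Ψ z) ∈ PF F) :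
    ∃ y, ∀ w, (x, y, w) ∉ F := by
  by_contra hcon
  push Not at hcon
  have hX : MeasurableSet {z : ℕ → ℕ | ¬ Ψ z (2 * nd [] [] 1 + 1) = 1} :=
    (((measurable_pi_apply _).comp hΨ) (measurableSet_singleton 1)).compl
  have hgen : (MeasurableSpace.pi : MeasurableSpace (ℕ → ℕ)) =
      MeasurableSpace.generateFrom (range UB) := by
    apply le_antisymm
    · refine iSup_le fun i => ?_
      rintro _ ⟨S, -, rfl⟩
      have : (fun x : ℕ → ℕ => x i) ⁻¹' S = ⋃ m ∈ S, UB (Nat.pair i m) := by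
        ext x; simp [bas]
      change @MeasurableSet _ (MeasurableSpace.generateFrom (range UB)) ((fun x : ℕ → ℕ => x i) ⁻¹' S)
      rw [this]
      refine @MeasurableSet.biUnion _ _ (MeasurableSpace.generateFrom (range UB)) _ _
        (to_countable S) fun m _ => ?_
      exact MeasurableSpace.measurableSet_generateFrom ⟨_, rfl⟩
    · refine MeasurableSpace.generateFrom_le ?_
      rintro _ ⟨k, rfl⟩
      exact meas_bas k
  obtain ⟨κ, -, hκ⟩ := PC_of_measurable (Ω := Unit) (U := UB) hgen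
    (G := {p : Unit × (ℕ → ℕ) | ¬ Ψ p.2 (2 * nd [] [] 1 + 1) = 1}) (measurable_snd hX)
  have hc : Codes UB (κ ()) {z : ℕ → ℕ | ¬ Ψ z (2 * nd [] [] 1 + 1) = 1} := hκ ()
  set c := κ () with hcdef
  obtain ⟨w, hw⟩ := hcon (evn (Ψ c))
  have h1 := HR_correct (h c) (fun n => Tre_of_mem hw n) hc [] (sub_nil c).symm
  by_cases h2 : Ψ c (2 * nd [] [] 1 + 1) = 1
  · have h3 := h1.1 [] h2
    exact h3 h2
  · have h3 := h1.2.2.1 h2 0
    exact h2 h3

end Pool.Agent.W923.BI
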