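import Mathlib
import Pool.Agent.W923.BI.Hier

set_option autoImplicit false

/-!
# Forests of stars and Borel uniformizations
-/

namespace Pool.Agent.W923.BI

open Set MeasureTheory Filter Topology Pool.Agent.W923.BH

/-- The vertices of the two graphs. -/
abbrev VS : Type := (ℕ → ℕ) × ℕ

/-- The generating relation of the two graphs: `(z, 0)` is the centre of the star number `z`;
`(z, 1)` is always a leaf of it, `(z, 2)` is a leaf of it if `b` holds, and `(a, k)`, where `k ≥ 4`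
is even and `a` codes the pair `(z, q)`, is a leaf of it if `P z q` holds.  All other vertices are
isolated. -/
def SR (P : (ℕ → ℕ) → (ℕ → ℕ) → Prop) (b : Prop) (v v' : VS) : Prop :=
  (v.2 = 0 ∧ v'.2 = 1 ∧ v.1 = v'.1) ∨ (b ∧ v.2 = 0 ∧ v'.2 = 2 ∧ v.1 = v'.1) ∨
    (v.2 = 0 ∧ 4 ≤ v'.2 ∧ v'.2 % 2 = 0 ∧ v.1 = evn v'.1 ∧ P (evn v'.1) (odd v'.1))

/-- The forest of stars. -/
def GStar (P : (ℕ → ℕ) → (ℕ → ℕ) → Prop) (b : Prop) : SimpleGraph VS where
  Adj v v' := SR P b v v' ∨ SR P b v' v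
  symm := ⟨fun _ _ h => h.symm⟩
  loopless := ⟨fun v h => by
    rcases h with (⟨h1, h2, -⟩ | ⟨-, h1, h2, -⟩ | ⟨h1, h2, -⟩) |
      (⟨h1, h2, -⟩ | ⟨-, h1, h2, -⟩ | ⟨h1, h2, -⟩) <;> omega⟩

section

variable {P : (ℕ → ℕ) → (ℕ → ℕ) → Prop} {b : Prop}

theorem SR_left {v v' : VS} (h : SR P b v v') : v.2 = 0 ∧ v'.2 ≠ 0 := by
  rcases h with ⟨h1, h2, -⟩ | ⟨-, h1, h2, -⟩ | ⟨h1, h2, -⟩ <;> omega

/-- Every edge joins a centre and a leaf. -/
theorem adj_centre {v v' : VS} (h : (GStar P b).Adj v v') :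
    (v.2 = 0 ∧ v'.2 ≠ 0 ∧ SR P b v v') ∨ (v'.2 = 0 ∧ v.2 ≠ 0 ∧ SR P b v' v) := by
  rcases h with h | h
  · exact Or.inl ⟨(SR_left h).1, (SR_left h).2, h⟩
  · exact Or.inr ⟨(SR_left h).1, (SR_left h).2, h⟩

theorem SR_unique {v v' u : VS} (h : SR P b v u) (h' : SR P b v' u) : v = v' := by
  have h0 := SR_left h
  have h0' := SR_left h'
  apply Prod.ext
  · rcases h with ⟨h1, h2, h3⟩ | ⟨-, h1, h2, h3⟩ | ⟨h1, h2, h3, h4, -⟩ <;>
    rcases h' with ⟨h1', h2', h3'⟩ | ⟨-, h1', h2', h3'⟩ | ⟨h1', h2', h3', h4', -⟩ <;>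
    first | omega | (rw [h3, h3']) | (rw [h4, h4'])
  · omega

/-- All connected components are stars. -/
theorem no_long_path {u v w t : VS} (h1 : (GStar P b).Adj u v) (h2 : (GStar P b).Adj v w)
    (h3 : (GStar P b).Adj w t) : u = w ∨ t = v := by
  rcases adj_centre h2 with ⟨a1, a2, a3⟩ | ⟨a1, a2, a3⟩
  · right
    rcases adj_centre h3 with ⟨b1, b2, b3⟩ | ⟨b1, b2, b3⟩
    · omega
    · exact SR_unique b3 a3
  · left
    rcases adj_centre h1 with ⟨b1, b2, b3⟩ | ⟨b1, b2, b3⟩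
    · exact SR_unique b3 a3
    · omega

/-- A Borel isomorphism gives a Borel uniformization. -/
theorem unif_of_iso (f : VS ≃ᵐ VS)
    (hf : ∀ v v', (GStar P True).Adj v v' ↔ (GStar P False).Adj (f v) (f v')) :
    ∃ Ψ : (ℕ → ℕ) → ℕ → ℕ, Measurable Ψ ∧ ∀ z, P z (Ψ z) := by
  -- edges of the first graph
  have e1 : ∀ z, (GStar P True).Adj (z, 0) (z, 1) := fun z => Or.inl (Or.inl ⟨rfl, rfl, rfl⟩)
  have e2 : ∀ z, (GStar P True).Adj (z, 0) (z, 2) := fun z =>
    Or.inl (Or.inr (Or.inl ⟨trivial, rfl, rfl, rfl⟩))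
  have e1' : ∀ z, (GStar P False).Adj (z, 0) (z, 1) := fun z => Or.inl (Or.inl ⟨rfl, rfl, rfl⟩)
  -- centres go to centres
  have c1 : ∀ z, (f (z, 0)).2 = 0 := by
    intro z
    by_contra hne
    have a1 := (hf _ _).1 (e1 z)
    have a2 := (hf _ _).1 (e2 z)
    rcases adj_centre a1 with ⟨h1, -, -⟩ | ⟨-, -, h1⟩
    · exact hne h1
    rcases adj_centre a2 with ⟨h2, -, -⟩ | ⟨-, -, h2⟩
    · exact hne h2
    have h3 := f.injective (SR_unique h1 h2)
    simp at h3
  have c2 : ∀ z, (f.symm (z, 0)).2 = 0 := by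
    intro z
    have a1 : (GStar P True).Adj (f.symm (z, 0)) (f.symm (z, 1)) := by
      rw [hf, f.apply_symm_apply, f.apply_symm_apply]
      exact e1' z
    rcases adj_centre a1 with ⟨h1, -, -⟩ | ⟨h1, -, -⟩
    · exact h1
    · exfalso
      have h2 : f.symm (z, 1) = ((f.symm (z, 1)).1, 0) := Prod.ext rfl h1
      have h3 := c1 (f.symm (z, 1)).1
      rw [← h2, f.apply_symm_apply] at h3
      simp at h3
  -- the leaves
  let σ : (ℕ → ℕ) → (ℕ → ℕ) := fun z => (f.symm (z, 0)).1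
  have hσ : Measurable σ :=
    measurable_fst.comp (f.symm.measurable.comp (measurable_id.prodMk measurable_const))
  have hσ2 : ∀ z, f (σ z, 0) = (z, 0) := by
    intro z
    have : (σ z, 0) = f.symm (z, 0) := Prod.ext rfl (c2 z).symm
    rw [this, f.apply_symm_apply]
  have leaf : ∀ z k, (GStar P True).Adj (σ z, 0) (σ z, k) → f (σ z, k) ≠ (z, 1) →
      P z (odd (f (σ z, k)).1) := by
    intro z k h hne
    have h1 := (hf _ _).1 h
    rw [hσ2] at h1
    rcases adj_centre h1 with ⟨-, -, h2⟩ | ⟨h2, h3, -⟩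
    · rcases h2 with ⟨-, h3, h4⟩ | ⟨h3, -⟩ | ⟨-, -, -, h4, h5⟩
      · have h5 : f (σ z, k) = (z, 1) := by
          apply Prod.ext
          · exact h4.symm
          · exact h3
        exact absurd h5 hne
      · exact h3.elim
      · have h6 : z = evn (f (σ z, k)).1 := h4
        rw [← h6] at h5
        exact h5
    · exact absurd rfl h3
  classical
  refine ⟨fun z => if f (σ z, 1) = (z, 1) then odd (f (σ z, 2)).1 else odd (f (σ z, 1)).1,
    ?_, fun z => ?_⟩
  · refine Measurable.ite ?_ ?_ ?_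
    · exact measurableSet_eq_fun (f.measurable.comp (hσ.prodMk measurable_const))
        (measurable_id.prodMk measurable_const)
    · exact meas_odd.comp (measurable_fst.comp (f.measurable.comp (hσ.prodMk measurable_const)))
    · exact meas_odd.comp (measurable_fst.comp (f.measurable.comp (hσ.prodMk measurable_const)))
  · by_cases h : f (σ z, 1) = (z, 1)
    · simp only [if_pos h]
      refine leaf z 2 (e2 _) fun h2 => ?_
      have := f.injective (h.trans h2.symm)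
      simp at this
    · simp only [if_neg h]
      exact leaf z 1 (e1 _) h

/-- The shift along the chosen leaves. -/
noncomputable def fwd (Ψ : (ℕ → ℕ) → ℕ → ℕ) (v : VS) : VS :=
  open Classical in
  if v.2 = 2 then (jn v.1 (Ψ v.1), 4)
  else if v.2 = 3 then (v.1, 2)
  else if v.2 % 2 = 1 ∧ 5 ≤ v.2 then (v.1, v.2 - 2)
  else if 4 ≤ v.2 ∧ odd v.1 = Ψ (evn v.1) then (v.1, v.2 + 2)
  else v

/-- The inverse of the shift. -/
noncomputable def bwd (Ψ : (ℕ → ℕ) → ℕ → ℕ) (v : VS) : VS :=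
  open Classical in
  if v.2 = 2 then (v.1, 3)
  else if v.2 % 2 = 1 ∧ 3 ≤ v.2 then (v.1, v.2 + 2)
  else if 4 ≤ v.2 ∧ odd v.1 = Ψ (evn v.1) then (if v.2 = 4 then (evn v.1, 2) else (v.1, v.2 - 2))
  else v

theorem jn_evn_odd (a : ℕ → ℕ) : jn (evn a) (odd a) = a := by
  funext i
  unfold jn evn odd
  split_ifs with h <;> congr 1 <;> omega

theorem bwd_fwd (Ψ : (ℕ → ℕ) → ℕ → ℕ) (v : VS) : bwd Ψ (fwd Ψ v) = v := by
  obtain ⟨a, k⟩ := v
  unfold fwd
  dsimp only
  split_ifs with h1 h2 h3 h4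
  · subst h1
    unfold bwd
    dsimp only
    rw [if_neg (by norm_num), if_neg (by norm_num), evn_jn, odd_jn]
    simp
  · subst h2
    unfold bwd
    simp
  · unfold bwd
    dsimp only
    rw [if_neg (by omega), if_pos (by omega)]
    congr 1
    omega
  · unfold bwd
    dsimp only
    rw [if_neg (by omega), if_neg (by omega), if_pos ⟨by omega, h4.2⟩, if_neg (by omega)]
    rfl
  · unfold bwd
    dsimp only
    rw [if_neg h1, if_neg (by omega), if_neg h4]

theorem fwd_bwd (Ψ : (ℕ → ℕ) → ℕ → ℕ) (v : VS) : fwd Ψ (bwd Ψ v) = v := by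
  obtain ⟨a, k⟩ := v
  unfold bwd
  dsimp only
  split_ifs with h1 h2 h3 h4
  · subst h1
    unfold fwd
    simp
  · unfold fwd
    dsimp only
    rw [if_neg (by omega), if_neg (by omega), if_pos (by omega)]
    rfl
  · subst h4
    unfold fwd
    dsimp only
    rw [if_pos rfl, ← h3.2, jn_evn_odd]
  · unfold fwd
    dsimp only
    rw [if_neg (by omega), if_neg (by omega), if_neg (by omega), if_pos ⟨by omega, h3.2⟩]
    congr 1
    omega
  · unfold fwd
    dsimp only
    rw [if_neg h1, if_neg (by omega), if_neg (by omega), if_neg h3]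

theorem meas_eqPsi {Ψ : (ℕ → ℕ) → ℕ → ℕ} (hΨ : Measurable Ψ) :
    MeasurableSet {v : VS | odd v.1 = Ψ (evn v.1)} :=
  measurableSet_eq_fun (meas_odd.comp measurable_fst) (hΨ.comp (meas_evn.comp measurable_fst))

theorem meas_nat (Q : ℕ → Prop) : MeasurableSet {v : VS | Q v.2} :=
  measurable_snd (MeasurableSet.of_discrete (s := {n | Q n}))

theorem meas_shiftk (g : ℕ → ℕ) : Measurable fun v : VS => (v.1, g v.2) :=
  measurable_fst.prodMk ((Measurable.of_discrete (f := g)).comp measurable_snd)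

theorem meas_fwd {Ψ : (ℕ → ℕ) → ℕ → ℕ} (hΨ : Measurable Ψ) : Measurable (fwd Ψ) := by
  classical
  unfold fwd
  refine Measurable.ite (meas_nat (· = 2)) ?_ ?_
  · exact (meas_jn measurable_fst (hΨ.comp measurable_fst)).prodMk measurable_const
  refine Measurable.ite (meas_nat (· = 3)) (measurable_fst.prodMk measurable_const) ?_
  refine Measurable.ite (meas_nat fun k => k % 2 = 1 ∧ 5 ≤ k) (meas_shiftk fun k => k - 2) ?_
  refine Measurable.ite ?_ (meas_shiftk fun k => k + 2) measurable_id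
  exact (meas_nat fun k => 4 ≤ k).inter (meas_eqPsi hΨ)

theorem meas_bwd {Ψ : (ℕ → ℕ) → ℕ → ℕ} (hΨ : Measurable Ψ) : Measurable (bwd Ψ) := by
  classical
  unfold bwd
  refine Measurable.ite (meas_nat (· = 2)) (measurable_fst.prodMk measurable_const) ?_
  refine Measurable.ite (meas_nat fun k => k % 2 = 1 ∧ 3 ≤ k) (meas_shiftk fun k => k + 2) ?_
  refine Measurable.ite ((meas_nat fun k => 4 ≤ k).inter (meas_eqPsi hΨ)) ?_ measurable_id
  refine Measurable.ite (meas_nat (· = 4)) ?_ (meas_shiftk fun k => k - 2)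
  exact (meas_evn.comp measurable_fst).prodMk measurable_const

theorem SR_fwd {Ψ : (ℕ → ℕ) → ℕ → ℕ} (hΨ : ∀ z, P z (Ψ z)) {v v' : VS} :
    SR P True v v' ↔ SR P False (fwd Ψ v) (fwd Ψ v') := by
  obtain ⟨a, k⟩ := v
  obtain ⟨a', k'⟩ := v'
  by_cases hk : k = 0
  · subst hk
    have e0 : fwd Ψ (a, 0) = (a, 0) := by
      unfold fwd; simp
    rw [e0]
    unfold fwd SR
    dsimp only
    split_ifs with h1 h2 h3 h4
    · subst h1
      simp only [evn_jn, odd_jn]
      simp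
      intro _
      exact hΨ a'
    · subst h2
      simp
    · have h5 : k' ≠ 1 := by omega
      have h6 : k' ≠ 2 := by omega
      have h7 : k' % 2 ≠ 0 := by omega
      have h8 : k' - 2 ≠ 1 := by omega
      have h9 : (k' - 2) % 2 ≠ 0 := by omega
      simp only [h5, h6, h7, h8, h9]
      simp
    · have h5 : k' ≠ 1 := by omega
      have h6 : k' ≠ 2 := by omega
      have h7 : 4 ≤ k' + 2 := by omega
      have h8 : (k' + 2) % 2 = k' % 2 := by omega
      have h9 : k' + 2 ≠ 1 := by omega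
      simp only [h5, h6, h7, h8, h4.1, h9]
      simp
    · have h6 : k' ≠ 2 := by omega
      simp [h6]
  · have h1 : ¬ SR P True (a, k) (a', k') := fun h => hk (SR_left h).1
    have h2 : (fwd Ψ (a, k)).2 ≠ 0 := by
      unfold fwd
      dsimp only
      split_ifs
      · norm_num
      · norm_num
      · change k - 2 ≠ 0
        omega
      · change k + 2 ≠ 0
        omega
      · exact hk
    have h3 : ¬ SR P False (fwd Ψ (a, k)) (fwd Ψ (a', k')) := fun h => h2 (SR_left h).1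
    exact iff_of_false h1 h3

/-- A Borel uniformization gives a Borel isomorphism. -/
theorem iso_of_unif {Ψ : (ℕ → ℕ) → ℕ → ℕ} (hΨm : Measurable Ψ) (hΨ : ∀ z, P z (Ψ z)) :
    ∃ f : VS ≃ᵐ VS,
      ∀ v v', (GStar P True).Adj v v' ↔ (GStar P False).Adj (f v) (f v') := by
  refine ⟨⟨⟨fwd Ψ, bwd Ψ, bwd_fwd Ψ, fwd_bwd Ψ⟩, meas_fwd hΨm, meas_bwd hΨm⟩, fun v v' => ?_⟩
  exact or_congr (SR_fwd hΨ) (SR_fwd hΨ)

end

theorem meas_SR {Ω : Type} [MeasurableSpace Ω] {P : Ω → (ℕ → ℕ) → (ℕ → ℕ) → Prop} {b : Prop}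
    (hP : MeasurableSet {p : Ω × (ℕ → ℕ) × (ℕ → ℕ) | P p.1 p.2.1 p.2.2})
    {V V' : Ω → VS} (hV : Measurable V) (hV' : Measurable V') :
    MeasurableSet {ω | SR (P ω) b (V ω) (V' ω)} := by
  have hQ : ∀ (W : Ω → VS), Measurable W → ∀ Q : ℕ → Prop, MeasurableSet {ω | Q (W ω).2} :=
    fun W hW Q => hW (meas_nat Q)
  unfold SR
  simp only [Set.ofPred_and, Set.ofPred_or]
  have v1 : Measurable fun ω => (V ω).1 := measurable_fst.comp hV
  have v1' : Measurable fun ω => (V' ω).1 := measurable_fst.comp hV'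
  refine MeasurableSet.union ?_ (MeasurableSet.union ?_ ?_)
  · exact (hQ V hV (· = 0)).inter ((hQ V' hV' (· = 1)).inter (measurableSet_eq_fun v1 v1'))
  · exact (MeasurableSet.const _).inter ((hQ V hV (· = 0)).inter ((hQ V' hV' (· = 2)).inter
      (measurableSet_eq_fun v1 v1')))
  · refine (hQ V hV (· = 0)).inter ((hQ V' hV' (4 ≤ ·)).inter ((hQ V' hV' (· % 2 = 0)).inter
      ((measurableSet_eq_fun v1 (meas_evn.comp v1')).inter ?_)))
    have h1 : Measurable fun ω => (ω, evn (V' ω).1, odd (V' ω).1) :=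
      measurable_id.prodMk ((meas_evn.comp v1').prodMk (meas_odd.comp v1'))
    exact h1 hP

end Pool.Agent.W923.BI
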