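import Mathlib
import Pool.Agent.W923.BI.Stars

set_option autoImplicit false

/-!
# Borel isomorphism of Borel graphs: hardness
-/

namespace Pool.Agent.W923.BI

open Set MeasureTheory Filter Topology Pool.Agent.W923.BH

/-- `Σ¹₂` subsets: `A = {a | ∃ y, ∀ w, (a, y, w) ∈ R}` with `R` Borel, where `y` and `w` range over
the Baire space. -/
def IsSigma12 {α : Type} [MeasurableSpace α] (A : Set α) : Prop :=
  ∃ R : Set (α × (ℕ → ℕ) × (ℕ → ℕ)), MeasurableSet R ∧ A = {a | ∃ y, ∀ w, (a, y, w) ∈ R}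

/-- `c` is a Borel code, with respect to the sets `U k`, of the graph `G`. -/
def CodesGraph {X : Type} (U : ℕ → Set (X × X)) (c : ℕ → ℕ) (G : SimpleGraph X) : Prop :=
  Codes U c {q | G.Adj q.1 q.2}

/-- The pairs of codes of Borel isomorphic Borel graphs. -/
def IsoCodes {X : Type} [MeasurableSpace X] (U : ℕ → Set (X × X)) : Set ((ℕ → ℕ) × (ℕ → ℕ)) :=
  {p | ∃ G H : SimpleGraph X, CodesGraph U p.1 G ∧ CodesGraph U p.2 H ∧
    ∃ f : X ≃ᵐ X, ∀ x y, G.Adj x y ↔ H.Adj (f x) (f y)}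

theorem bs2 : BorelSpace ((ℕ → ℕ) × (ℕ → ℕ)) := inferInstance

theorem bs3 : BorelSpace ((ℕ → ℕ) × ((ℕ → ℕ) × (ℕ → ℕ))) :=
  @Prod.borelSpace (ℕ → ℕ) ((ℕ → ℕ) × (ℕ → ℕ)) _ _ _ inferInstance _ bs2 inferInstance

theorem normal_form_of_emb {S : Type} [MeasurableSpace S] {A : Set S}
    (hA : IsSigma12 A) {J : S → ℕ → ℕ} (hJ : MeasurableEmbedding J) :
    ∃ F : Set ((ℕ → ℕ) × (ℕ → ℕ) × (ℕ → ℕ)), IsClosed F ∧
      ∀ a, a ∈ A ↔ ∃ y, ∀ w, (J a, y, w) ∉ F := by
  obtain ⟨R, hR, rfl⟩ := hA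
  have hJ3 : MeasurableEmbedding
      (Prod.map J (id : (ℕ → ℕ) × (ℕ → ℕ) → (ℕ → ℕ) × (ℕ → ℕ))) :=
    hJ.prodMap MeasurableEmbedding.id
  have hQ : MeasurableSet (Prod.map J (id : (ℕ → ℕ) × (ℕ → ℕ) → (ℕ → ℕ) × (ℕ → ℕ)) '' Rᶜ) :=
    hJ3.measurableSet_image.2 hR.compl
  have hmem : ∀ a y w, (J a, y, w) ∈
      (Prod.map J (id : (ℕ → ℕ) × (ℕ → ℕ) → (ℕ → ℕ) × (ℕ → ℕ)) '' Rᶜ) ↔ (a, y, w) ∉ R := by
    intro a y w
    constructor
    · rintro ⟨⟨a', y', w'⟩, h1, h2⟩
      have h3 := hJ3.injective (a₁ := (a', y', w')) (a₂ := (a, y, w)) h2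
      rw [← h3]
      exact h1
    · intro h
      exact ⟨(a, y, w), h, rfl⟩
  have hbs : BorelSpace ((ℕ → ℕ) × (ℕ → ℕ) × (ℕ → ℕ)) := bs3
  have han : AnalyticSet
      (Prod.map J (id : (ℕ → ℕ) × (ℕ → ℕ) → (ℕ → ℕ) × (ℕ → ℕ)) '' Rᶜ) := hQ.analyticSet
  rw [AnalyticSet] at han
  rcases han with h0 | ⟨f, hf, hrange⟩
  · refine ⟨∅, isClosed_empty, fun a => ?_⟩
    simp only [mem_ofPred_eq, mem_empty_iff_false, not_false_eq_true, implies_true,
      exists_const_iff, and_true]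
    have hne : Nonempty (ℕ → ℕ) := inferInstance
    constructor
    · intro _; trivial
    · intro _
      refine ⟨0, fun w => ?_⟩
      by_contra h
      have := (hmem a 0 w).2 h
      rw [h0] at this
      exact this
  · refine ⟨{r | f (odd r.2.2) = (r.1, r.2.1, evn r.2.2)}, ?_, fun a => ?_⟩
    · have h2 : Continuous fun r : (ℕ → ℕ) × (ℕ → ℕ) × (ℕ → ℕ) => r.2.2 :=
        continuous_snd.comp continuous_snd
      have ho : Continuous odd := continuous_pi fun i => continuous_apply (2 * i + 1)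
      have he : Continuous evn := continuous_pi fun i => continuous_apply (2 * i)
      exact isClosed_eq (hf.comp (ho.comp h2))
        (continuous_fst.prodMk ((continuous_fst.comp continuous_snd).prodMk (he.comp h2)))
    · simp only [mem_ofPred_eq]
      refine exists_congr fun y => ?_
      constructor
      · intro h w hw
        have h1 : (J a, y, evn w) ∈ range f := ⟨_, hw⟩
        rw [hrange] at h1
        exact (hmem a y (evn w)).1 h1 (h _)
      · intro h w
        by_contra hw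
        have h1 := (hmem a y w).2 hw
        rw [← hrange] at h1
        obtain ⟨v, hv⟩ := h1
        apply h (jn w v)
        rw [evn_jn, odd_jn]
        exact hv

theorem not_countable_baire : ¬ Countable (ℕ → ℕ) := by
  intro h
  obtain ⟨f, hf⟩ := exists_surjective_nat (ℕ → ℕ)
  obtain ⟨n, hn⟩ := hf fun n => f n n + 1
  have := congrFun hn n
  omega

theorem exists_emb (S : Type) [MeasurableSpace S] [StandardBorelSpace S] :
    ∃ J : S → ℕ → ℕ, MeasurableEmbedding J := by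
  obtain ⟨f, hf⟩ := exists_measurableEmbedding_real S
  have hR : ¬ Countable ℝ := by
    intro h
    exact Cardinal.not_countable_real (countable_univ_iff.2 h)
  let e : ℝ ≃ᵐ (ℕ → ℕ) := PolishSpace.measurableEquivOfNotCountable hR not_countable_baire
  exact ⟨e ∘ f, e.measurableEmbedding.comp hf⟩

theorem not_countable_VS : ¬ Countable VS := by
  intro h
  exact not_countable_baire
    (Function.Injective.countable (f := fun a : ℕ → ℕ => ((a, 0) : VS))
      (fun a b hab => (Prod.mk.inj hab).1))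

/-- All connected components of the graph are stars: there is no path with three edges and no
triangle. -/
def StarForest {X : Type} (G : SimpleGraph X) : Prop :=
  ∀ u v w t, G.Adj u v → G.Adj v w → G.Adj w t → u = w ∨ t = v

theorem hard {X : Type} [MeasurableSpace X] [StandardBorelSpace X] (hX : ¬ Countable X)
    (U : ℕ → Set (X × X))
    (hU : (inferInstance : MeasurableSpace (X × X)) = MeasurableSpace.generateFrom (range U))
    {S : Type} [MeasurableSpace S] [StandardBorelSpace S] {A : Set S} (hA : IsSigma12 A) :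
    ∃ φ : S → (ℕ → ℕ) × (ℕ → ℕ), Measurable φ ∧
      (∀ s, ∃ G H : SimpleGraph X, StarForest G ∧ StarForest H ∧
        CodesGraph U (φ s).1 G ∧ CodesGraph U (φ s).2 H) ∧
      ∀ s, s ∈ A ↔ φ s ∈ IsoCodes U := by
  obtain ⟨J, hJ⟩ := exists_emb S
  obtain ⟨F, hF, hAF⟩ := normal_form_of_emb hA hJ
  let e : X ≃ᵐ VS := PolishSpace.measurableEquivOfNotCountable hX not_countable_VS
  let P : S → (ℕ → ℕ) → (ℕ → ℕ) → Prop := fun s z q => (J s, z, q) ∈ PF F
  have hP : MeasurableSet {p : S × (ℕ → ℕ) × (ℕ → ℕ) | P p.1 p.2.1 p.2.2} := by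
    have h1 : Measurable fun p : S × (ℕ → ℕ) × (ℕ → ℕ) => (J p.1, p.2.1, p.2.2) :=
      (hJ.measurable.comp measurable_fst).prodMk measurable_snd
    exact h1 (meas_PF F)
  let GG : Prop → S → SimpleGraph X := fun b s => (GStar (P s) b).comap e
  have hGG : ∀ b, MeasurableSet {p : S × (X × X) | (GG b p.1).Adj p.2.1 p.2.2} := by
    intro b
    have h1 : Measurable fun p : S × (X × X) => e p.2.1 :=
      e.measurable.comp (measurable_fst.comp measurable_snd)
    have h2 : Measurable fun p : S × (X × X) => e p.2.2 :=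
      e.measurable.comp (measurable_snd.comp measurable_snd)
    have hP' : MeasurableSet {p : (S × (X × X)) × (ℕ → ℕ) × (ℕ → ℕ) | P p.1.1 p.2.1 p.2.2} := by
      have h3 : Measurable fun p : (S × (X × X)) × (ℕ → ℕ) × (ℕ → ℕ) => (p.1.1, p.2) :=
        (measurable_fst.comp measurable_fst).prodMk measurable_snd
      exact h3 hP
    have h4 : {p : S × (X × X) | (GG b p.1).Adj p.2.1 p.2.2} =
        {p | SR (P p.1) b (e p.2.1) (e p.2.2)} ∪ {p | SR (P p.1) b (e p.2.2) (e p.2.1)} := rfl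
    rw [h4]
    exact (meas_SR hP' h1 h2).union (meas_SR hP' h2 h1)
  have hcode : ∀ b, ∃ κ : S → ℕ → ℕ, Measurable κ ∧ ∀ s, CodesGraph U (κ s) (GG b s) :=
    fun b => PC_of_measurable hU (hGG b)
  obtain ⟨κ, hκ, hκ2⟩ := hcode True
  obtain ⟨κ', hκ', hκ2'⟩ := hcode False
  have hstar : ∀ b s, StarForest (GG b s) := by
    intro b s u v w t h1 h2 h3
    rcases no_long_path (u := e u) (v := e v) (w := e w) (t := e t) h1 h2 h3 with h | h
    · exact Or.inl (e.injective h)
    · exact Or.inr (e.injective h)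
  refine ⟨fun s => (κ s, κ' s), hκ.prodMk hκ', fun s =>
    ⟨GG True s, GG False s, hstar _ _, hstar _ _, hκ2 s, hκ2' s⟩, fun s => ?_⟩
  rw [hAF]
  have hiff : (∃ y, ∀ w, (J s, y, w) ∉ F) ↔
      ∃ Ψ : (ℕ → ℕ) → ℕ → ℕ, Measurable Ψ ∧ ∀ z, P s z (Ψ z) := by
    constructor
    · rintro ⟨y, hy⟩
      exact PF_unif hF hy
    · rintro ⟨Ψ, hΨ, h⟩
      exact PF_no_unif hΨ h
  rw [hiff]
  have huniq : ∀ (c : ℕ → ℕ) (G H : SimpleGraph X), CodesGraph U c G → CodesGraph U c H →
      G = H := by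
    intro c G H h1 h2
    have h3 := Codes.unique h1 h2
    ext x y
    have h4 : ((x, y) ∈ {q : X × X | G.Adj q.1 q.2}) ↔ ((x, y) ∈ {q : X × X | H.Adj q.1 q.2}) := by
      rw [h3]
    exact h4
  constructor
  · rintro ⟨Ψ, hΨ, h⟩
    obtain ⟨f, hf⟩ := iso_of_unif hΨ h
    refine ⟨GG True s, GG False s, hκ2 s, hκ2' s, (e.trans f).trans e.symm, fun x y => ?_⟩
    have h1 := hf (e x) (e y)
    change (GStar (P s) True).Adj (e x) (e y) ↔
      (GStar (P s) False).Adj (e (e.symm (f (e x)))) (e (e.symm (f (e y))))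
    rw [e.apply_symm_apply, e.apply_symm_apply]
    exact h1
  · rintro ⟨G, H, hG, hH, f, hf⟩
    obtain rfl := huniq _ _ _ hG (hκ2 s)
    obtain rfl := huniq _ _ _ hH (hκ2' s)
    refine unif_of_iso ((e.symm.trans f).trans e) fun v v' => ?_
    have h1 := hf (e.symm v) (e.symm v')
    change (GStar (P s) True).Adj (e (e.symm v)) (e (e.symm v')) ↔ _ at h1
    rw [e.apply_symm_apply, e.apply_symm_apply] at h1
    exact h1

end Pool.Agent.W923.BI
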