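import Mathlib
import Pool.Agent.W923.BI.Hard

set_option autoImplicit false

/-!
# Borel isomorphism of Borel graphs: the upper bound
-/

namespace Pool.Agent.W923.BI

open Set MeasureTheory Filter Topology Pool.Agent.W923.BH

theorem gen_UB : (MeasurableSpace.pi : MeasurableSpace (ℕ → ℕ)) =
    MeasurableSpace.generateFrom (range UB) := by
  apply le_antisymm
  · refine iSup_le fun i => ?_
    rintro _ ⟨S, -, rfl⟩
    have : (fun x : ℕ → ℕ => x i) ⁻¹' S = ⋃ m ∈ S, UB (Nat.pair i m) := by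
      ext x; simp [bas]
    change @MeasurableSet _ (MeasurableSpace.generateFrom (range UB)) ((fun x : ℕ → ℕ => x i) ⁻¹' S)
    rw [this]
    refine @MeasurableSet.biUnion _ _ (MeasurableSpace.generateFrom (range UB)) _ _
      (to_countable S) fun m _ => ?_
    exact MeasurableSpace.measurableSet_generateFrom ⟨_, rfl⟩
  · refine MeasurableSpace.generateFrom_le ?_
    rintro _ ⟨k, rfl⟩
    exact meas_bas k

/-- Every Borel set has a code. -/
theorem exists_code_of_measurable {A : Set (ℕ → ℕ)} (hA : MeasurableSet A) :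
    ∃ c, Codes UB c A := by
  obtain ⟨κ, -, hκ⟩ := PC_of_measurable (Ω := Unit) (U := UB) gen_UB
    (G := {p : Unit × (ℕ → ℕ) | p.2 ∈ A}) (measurable_snd hA)
  exact ⟨κ (), hκ ()⟩

/-- Coded sets are Borel. -/
theorem Codes.meas {Y : Type} [MeasurableSpace Y] {U : ℕ → Set Y} (hU : ∀ k, MeasurableSet (U k))
    {c : ℕ → ℕ} {A : Set Y} (h : Codes U c A) : MeasurableSet A := by
  induction h with
  | basic c k h => exact hU k
  | nor c h A hA ih => exact (MeasurableSet.iUnion ih).compl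

/-- The components of a sequence. -/
def cmp (y : ℕ → ℕ) (i : ℕ) : ℕ → ℕ := fun n => y (Nat.pair i n)

/-- Merging sequences. -/
def merge (f : ℕ → ℕ → ℕ) : ℕ → ℕ := fun m => f m.unpair.1 m.unpair.2

theorem cmp_merge (f : ℕ → ℕ → ℕ) (i : ℕ) : cmp (merge f) i = f i := by
  funext n; simp [cmp, merge]

/-- The value coded by an evaluation of a code of a function. -/
noncomputable def vl (E : ℕ → ℕ) : ℕ → ℕ := fun n => lst fun m => E (en [Nat.pair n m]) = 1

theorem meas_vl : Measurable vl := by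
  rw [measurable_pi_iff]
  intro n
  exact measurable_lst fun m => (measurable_pi_apply (X := fun _ : ℕ => ℕ) _)
    (measurableSet_singleton 1)

theorem meas_cmp (i : ℕ) : Measurable fun w : ℕ → ℕ => cmp w i :=
  measurable_pi_iff.2 fun _ => measurable_pi_apply _

theorem vl_eq {y : ℕ → ℕ} (h0 : y (en []) = 0) {A : ℕ → Set (ℕ → ℕ)}
    (hA : ∀ j, Codes UB (child y j) (A j)) {x E : ℕ → ℕ} (hE : EvG y (fun k => bas k x) E) :
    vl E = fun n => lst fun m => x ∈ A (Nat.pair n m) := by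
  funext n
  unfold vl
  congr 1
  funext m
  have h1 := (hA (Nat.pair n m)).eval x (child E (Nat.pair n m)) (EvG_child h0 hE _)
  rw [child_en] at h1
  exact propext h1

section

variable {X : Type} [MeasurableSpace X]

/-- The matrix of the definition. -/
def Good (e : X ≃ᵐ (ℕ → ℕ)) (U : ℕ → Set (X × X)) (c d y w : ℕ → ℕ) : Prop :=
  (∃ n, c (en (ini (cmp w 0) n)) ≠ 0) ∧ (∃ n, d (en (ini (cmp w 0) n)) ≠ 0) ∧
  (∃ n, y (en (ini (cmp w 0) n)) ≠ 0) ∧ y (en []) = 0 ∧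
  (EvG y (fun k => bas k (cmp w 1)) (cmp w 3) → EvG y (fun k => bas k (cmp w 2)) (cmp w 4) →
    ((cmp w 2 = evn (vl (cmp w 3)) ↔ cmp w 1 = odd (vl (cmp w 4))) ∧
    (EvG c (fun k => (e.symm (cmp w 1), e.symm (cmp w 2)) ∈ U k) (cmp w 5) →
      EvG d (fun k => (e.symm (evn (vl (cmp w 3))), e.symm (evn (vl (cmp w 4)))) ∈ U k)
        (cmp w 6) → (cmp w 5 (en []) = 1 ↔ cmp w 6 (en []) = 1)))) ∧
  (EvG c (fun k => (e.symm (cmp w 1), e.symm (cmp w 1)) ∈ U k) (cmp w 5) →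
    cmp w 5 (en []) ≠ 1) ∧
  (EvG c (fun k => (e.symm (cmp w 1), e.symm (cmp w 2)) ∈ U k) (cmp w 5) →
    EvG c (fun k => (e.symm (cmp w 2), e.symm (cmp w 1)) ∈ U k) (cmp w 6) →
      cmp w 5 (en []) = 1 → cmp w 6 (en []) = 1)

theorem meas_Good (e : X ≃ᵐ (ℕ → ℕ)) {U : ℕ → Set (X × X)} (hU : ∀ k, MeasurableSet (U k)) :
    MeasurableSet {r : ((ℕ → ℕ) × (ℕ → ℕ)) × (ℕ → ℕ) × (ℕ → ℕ) |
      Good e U r.1.1 r.1.2 r.2.1 r.2.2} := by
  have mc : Measurable fun r : ((ℕ → ℕ) × (ℕ → ℕ)) × (ℕ → ℕ) × (ℕ → ℕ) => r.1.1 :=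
    measurable_fst.comp measurable_fst
  have md : Measurable fun r : ((ℕ → ℕ) × (ℕ → ℕ)) × (ℕ → ℕ) × (ℕ → ℕ) => r.1.2 :=
    measurable_snd.comp measurable_fst
  have my : Measurable fun r : ((ℕ → ℕ) × (ℕ → ℕ)) × (ℕ → ℕ) × (ℕ → ℕ) => r.2.1 :=
    measurable_fst.comp measurable_snd
  have mw : Measurable fun r : ((ℕ → ℕ) × (ℕ → ℕ)) × (ℕ → ℕ) × (ℕ → ℕ) => r.2.2 :=
    measurable_snd.comp measurable_snd
  have mi : ∀ i, Measurable fun r : ((ℕ → ℕ) × (ℕ → ℕ)) × (ℕ → ℕ) × (ℕ → ℕ) => cmp r.2.2 i :=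
    fun i => (meas_cmp i).comp mw
  have hbr : ∀ C : ((ℕ → ℕ) × (ℕ → ℕ)) × (ℕ → ℕ) × (ℕ → ℕ) → ℕ → ℕ, Measurable C →
      MeasurableSet {r | ∃ n, C r (en (ini (cmp r.2.2 0) n)) ≠ 0} := by
    intro C hC
    simp only [Set.ofPred_exists]
    refine MeasurableSet.iUnion fun n => ?_
    have h1 : {r : ((ℕ → ℕ) × (ℕ → ℕ)) × (ℕ → ℕ) × (ℕ → ℕ) | C r (en (ini (cmp r.2.2 0) n)) ≠ 0} =
        ⋃ u : List ℕ, {r | ini (cmp r.2.2 0) n = u} ∩ {r | C r (en u) = 0}ᶜ := by
      ext r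
      simp only [mem_ofPred_eq, mem_iUnion, mem_inter_iff, mem_compl_iff, exists_eq_left']
    rw [h1]
    refine MeasurableSet.iUnion fun u => (meas_ini_eq (mi 0) n u).inter ?_
    exact (((measurable_pi_apply (X := fun _ : ℕ => ℕ) (en u)).comp hC)
      (measurableSet_singleton 0)).compl
  have hiff : ∀ A B : ((ℕ → ℕ) × (ℕ → ℕ)) × (ℕ → ℕ) × (ℕ → ℕ) → Prop, MeasurableSet {ω | A ω} →
      MeasurableSet {ω | B ω} → MeasurableSet {ω | A ω ↔ B ω} := by
    intro A B hA hB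
    have : {ω | A ω ↔ B ω} = ({ω | A ω} ∩ {ω | B ω}) ∪ ({ω | A ω}ᶜ ∩ {ω | B ω}ᶜ) := by
      ext ω
      simp only [mem_ofPred_eq, mem_union, mem_inter_iff, mem_compl_iff]
      tauto
    rw [this]
    exact (hA.inter hB).union (hA.compl.inter hB.compl)
  have hone : ∀ i, MeasurableSet
      {r : ((ℕ → ℕ) × (ℕ → ℕ)) × (ℕ → ℕ) × (ℕ → ℕ) | cmp r.2.2 i (en []) = 1} := fun i =>
    ((measurable_pi_apply (X := fun _ : ℕ => ℕ) (en [])).comp (mi i)) (measurableSet_singleton 1)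
  have hpt : ∀ C a b : ((ℕ → ℕ) × (ℕ → ℕ)) × (ℕ → ℕ) × (ℕ → ℕ) → ℕ → ℕ, Measurable C →
      Measurable a → Measurable b → ∀ i, MeasurableSet
      {r | EvG (C r) (fun k => (e.symm (a r), e.symm (b r)) ∈ U k) (cmp r.2.2 i)} := by
    intro C a b hC ha hb i
    refine meas_EvG hC (mi i) fun k => ?_
    exact ((e.symm.measurable.comp ha).prodMk (e.symm.measurable.comp hb)) (hU k)
  have hpb : ∀ a : ((ℕ → ℕ) × (ℕ → ℕ)) × (ℕ → ℕ) × (ℕ → ℕ) → ℕ → ℕ, Measurable a →
      ∀ i, MeasurableSet {r | EvG r.2.1 (fun k => bas k (a r)) (cmp r.2.2 i)} := by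
    intro a ha i
    exact meas_EvG my (mi i) fun k => ha (meas_bas k)
  have mev : ∀ i, Measurable fun r : ((ℕ → ℕ) × (ℕ → ℕ)) × (ℕ → ℕ) × (ℕ → ℕ) =>
      evn (vl (cmp r.2.2 i)) := fun i => meas_evn.comp (meas_vl.comp (mi i))
  have mod : ∀ i, Measurable fun r : ((ℕ → ℕ) × (ℕ → ℕ)) × (ℕ → ℕ) × (ℕ → ℕ) =>
      odd (vl (cmp r.2.2 i)) := fun i => meas_odd.comp (meas_vl.comp (mi i))
  unfold Good
  simp only [Set.ofPred_and]
  refine (hbr _ mc).inter ((hbr _ md).inter ((hbr _ my).inter (MeasurableSet.inter ?_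
    (MeasurableSet.inter ?_ (MeasurableSet.inter ?_ ?_)))))
  · exact ((measurable_pi_apply (X := fun _ : ℕ => ℕ) (en [])).comp my) (measurableSet_singleton 0)
  · refine MeasurableSet.imp (hpb _ (mi 1) 3) (MeasurableSet.imp (hpb _ (mi 2) 4) ?_)
    rw [Set.ofPred_and]
    refine MeasurableSet.inter ?_ ?_
    · exact hiff _ _ (measurableSet_eq_fun (mi 2) (mev 3)) (measurableSet_eq_fun (mi 1) (mod 4))
    · exact MeasurableSet.imp (hpt _ _ _ mc (mi 1) (mi 2) 5)
        (MeasurableSet.imp (hpt _ _ _ md (mev 3) (mev 4) 6) (hiff _ _ (hone 5) (hone 6)))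
  · exact MeasurableSet.imp (hpt _ _ _ mc (mi 1) (mi 1) 5) (hone 5).compl
  · exact MeasurableSet.imp (hpt _ _ _ mc (mi 1) (mi 2) 5)
      (MeasurableSet.imp (hpt _ _ _ mc (mi 2) (mi 1) 6) (MeasurableSet.imp (hone 5) (hone 6)))

theorem iso_of_Good (e : X ≃ᵐ (ℕ → ℕ)) {U : ℕ → Set (X × X)} {c d y : ℕ → ℕ}
    (h : ∀ w, Good e U c d y w) : (c, d) ∈ IsoCodes U := by
  obtain ⟨A, hA⟩ := exists_codes (Y := X × X) (U := U) (c := c) fun v => by
    have := (h (merge fun _ => v)).1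
    rwa [cmp_merge] at this
  obtain ⟨B, hB⟩ := exists_codes (Y := X × X) (U := U) (c := d) fun v => by
    have := (h (merge fun _ => v)).2.1
    rwa [cmp_merge] at this
  obtain ⟨Y0, hY0⟩ := exists_codes (Y := ℕ → ℕ) (U := UB) (c := y) fun v => by
    have := (h (merge fun _ => v)).2.2.1
    rwa [cmp_merge] at this
  have h0 : y (en []) = 0 := (h (merge fun _ _ => 0)).2.2.2.1
  obtain ⟨Z, hZ⟩ : ∃ Z : ℕ → Set (ℕ → ℕ), ∀ j, Codes UB (child y j) (Z j) := by
    cases hY0 with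
    | basic _ k hk => omega
    | nor _ _ Z hZ => exact ⟨Z, hZ⟩
  let Φ : (ℕ → ℕ) → ℕ → ℕ := fun x n => lst fun m => x ∈ Z (Nat.pair n m)
  have hΦ : Measurable Φ := by
    rw [measurable_pi_iff]
    intro n
    exact measurable_lst fun m => (hZ _).meas meas_bas
  have hvl : ∀ x E, EvG y (fun k => bas k x) E → vl E = Φ x := fun x E hE => vl_eq h0 hZ hE
  have hex : ∀ x, ∃ E, EvG y (fun k => bas k x) E := fun x => hY0.exists_eval x
  have hinv : ∀ x x', x' = evn (Φ x) ↔ x = odd (Φ x') := by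
    intro x x'
    obtain ⟨E, hE⟩ := hex x
    obtain ⟨E', hE'⟩ := hex x'
    have h1 := (h (merge fun i => if i = 1 then x else if i = 2 then x' else if i = 3 then E
      else E')).2.2.2.2.1
    simp only [cmp_merge] at h1
    have h2 := (h1 (by simpa using hE) (by simpa using hE')).1
    simp only [OfNat.ofNat_ne_one, if_true, if_false] at h2
    norm_num at h2
    rw [hvl x E hE, hvl x' E' hE'] at h2
    exact h2
  let f : (ℕ → ℕ) ≃ᵐ (ℕ → ℕ) :=
    { toFun := fun x => evn (Φ x)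
      invFun := fun x => odd (Φ x)
      left_inv := fun x => ((hinv x _).1 rfl).symm
      right_inv := fun x => ((hinv _ x).2 rfl).symm
      measurable_toFun := meas_evn.comp hΦ
      measurable_invFun := meas_odd.comp hΦ }
  have hadj : ∀ x x', ((e.symm x, e.symm x') ∈ A ↔ (e.symm (f x), e.symm (f x')) ∈ B) := by
    intro x x'
    obtain ⟨E, hE⟩ := hex x
    obtain ⟨E', hE'⟩ := hex x'
    obtain ⟨F, hF⟩ := hA.exists_eval (e.symm x, e.symm x')
    obtain ⟨F', hF'⟩ := hB.exists_eval (e.symm (f x), e.symm (f x'))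
    have h1 := (h (merge fun i => if i = 1 then x else if i = 2 then x' else if i = 3 then E
      else if i = 4 then E' else if i = 5 then F else F')).2.2.2.2.1
    simp only [cmp_merge] at h1
    have h2 := (h1 (by simpa using hE) (by simpa using hE')).2
    norm_num at h2
    rw [hvl x E hE, hvl x' E' hE'] at h2
    have h3 := h2 hF hF'
    rw [hA.eval _ F hF, hB.eval _ F' hF'] at h3
    exact h3
  have hadj' : ∀ p q, ((p, q) ∈ A ↔ (e.symm (f (e p)), e.symm (f (e q))) ∈ B) := by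
    intro p q
    have := hadj (e p) (e q)
    rwa [e.symm_apply_apply, e.symm_apply_apply] at this
  have hirr : ∀ p, (p, p) ∉ A := by
    intro p hp
    obtain ⟨F, hF⟩ := hA.exists_eval (p, p)
    have h1 := (h (merge fun i => if i = 1 then e p else F)).2.2.2.2.2.1
    simp only [cmp_merge] at h1
    norm_num at h1
    exact h1 hF ((hA.eval _ F hF).2 hp)
  have hsym : ∀ p q, (p, q) ∈ A → (q, p) ∈ A := by
    intro p q hp
    obtain ⟨F, hF⟩ := hA.exists_eval (p, q)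
    obtain ⟨F', hF'⟩ := hA.exists_eval (q, p)
    have h1 := (h (merge fun i => if i = 1 then e p else if i = 2 then e q else
      if i = 5 then F else F')).2.2.2.2.2.2
    simp only [cmp_merge] at h1
    norm_num at h1
    exact (hA.eval _ F' hF').1 (h1 hF hF' ((hA.eval _ F hF).2 hp))
  let F : X ≃ᵐ X := (e.trans f).trans e.symm
  have hF : ∀ p q, ((p, q) ∈ A ↔ (F p, F q) ∈ B) := hadj'
  have hF' : ∀ p q, ((F.symm p, F.symm q) ∈ A ↔ (p, q) ∈ B) := by
    intro p q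
    rw [hF, F.apply_symm_apply, F.apply_symm_apply]
  let G : SimpleGraph X :=
    { Adj := fun p q => (p, q) ∈ A
      symm := ⟨fun p q h => hsym p q h⟩
      loopless := ⟨fun p h => hirr p h⟩ }
  let H : SimpleGraph X :=
    { Adj := fun p q => (p, q) ∈ B
      symm := ⟨fun p q h => (hF' q p).1 (hsym _ _ ((hF' p q).2 h))⟩
      loopless := ⟨fun p h => hirr _ ((hF' p p).2 h)⟩ }
  exact ⟨G, H, hA, hB, F, hF⟩

theorem Good_of_iso (e : X ≃ᵐ (ℕ → ℕ)) {U : ℕ → Set (X × X)} {c d : ℕ → ℕ}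
    (h : (c, d) ∈ IsoCodes U) : ∃ y, ∀ w, Good e U c d y w := by
  obtain ⟨G, H, hG, hH, F, hF⟩ := h
  let Φ : (ℕ → ℕ) → ℕ → ℕ := fun x => jn (e (F (e.symm x))) (e (F.symm (e.symm x)))
  have hΦ : Measurable Φ := meas_jn (e.measurable.comp (F.measurable.comp e.symm.measurable))
    (e.measurable.comp (F.symm.measurable.comp e.symm.measurable))
  have hc : ∀ j : ℕ, ∃ c, Codes UB c {x | Φ x j.unpair.1 = j.unpair.2} := fun j =>
    exists_code_of_measurable (((measurable_pi_apply (X := fun _ : ℕ => ℕ) _).comp hΦ)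
      (measurableSet_singleton j.unpair.2))
  choose κ hκ using hc
  have hy := codes_glue hκ
  have hvl : ∀ x E, EvG (glueE 0 κ) (fun k => bas k x) E → vl E = Φ x := by
    intro x E hE
    rw [vl_eq (glueE_nil _ _) (A := fun j => {x | Φ x j.unpair.1 = j.unpair.2}) (fun j => by
      rw [child_glueE]; exact hκ j) hE]
    funext n
    refine lst_eq ?_ ?_
    · simp
    · intro m hm
      simp only [mem_ofPred_eq, Nat.unpair_pair]
      omega
  refine ⟨glueE 0 κ, fun w => ⟨hG.wf _, hH.wf _, hy.wf _, glueE_nil _ _, fun h1 h2 => ⟨?_, ?_⟩,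
    ?_, ?_⟩⟩
  · rw [hvl _ _ h1, hvl _ _ h2]
    simp only [Φ, evn_jn, odd_jn]
    constructor
    · intro h3
      rw [h3]; simp
    · intro h3
      rw [h3]; simp
  · intro h3 h4
    rw [hvl _ _ h1, hvl _ _ h2] at h4
    simp only [Φ, evn_jn, e.symm_apply_apply] at h4
    rw [hG.eval _ _ h3, hH.eval _ _ h4]
    exact hF _ _
  · intro h3 h4
    rw [hG.eval _ _ h3] at h4
    exact G.loopless.irrefl _ h4
  · intro h3 h4 h5
    rw [hG.eval _ _ h3] at h5
    rw [hG.eval _ _ h4]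
    exact G.symm.symm _ _ h5

theorem upper [StandardBorelSpace X] (hX : ¬ Countable X) {U : ℕ → Set (X × X)}
    (hU : ∀ k, MeasurableSet (U k)) : IsSigma12 (IsoCodes U) := by
  let e : X ≃ᵐ (ℕ → ℕ) := PolishSpace.measurableEquivOfNotCountable hX not_countable_baire
  refine ⟨_, meas_Good e hU, ?_⟩
  ext ⟨c, d⟩
  constructor
  · exact fun h => Good_of_iso e h
  · rintro ⟨y, hy⟩
    exact iso_of_Good e hy

end

end Pool.Agent.W923.BI
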