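import Mathlib
import Pool.Agent.W923.BI.Upper

set_option autoImplicit false

/-!
# Borel isomorphism of Borel graphs is not `Π¹₂`
-/

namespace Pool.Agent.W923.BI

open Set MeasureTheory Filter Topology Pool.Agent.W923.BH

/-- Number of a triple of finite sequences. -/
def trip (a b c : List ℕ) : ℕ := Nat.pair (en a) (Nat.pair (en b) (en c))

/-- The closed set with a given code. -/
def Fe (e : ℕ → ℕ) : Set ((ℕ → ℕ) × (ℕ → ℕ) × (ℕ → ℕ)) :=
  {r | ∀ n, e (trip (ini r.1 n) (ini r.2.1 n) (ini r.2.2 n)) = 0}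

theorem exists_Fe {F : Set ((ℕ → ℕ) × (ℕ → ℕ) × (ℕ → ℕ))} (hF : IsClosed F) :
    ∃ e, F = Fe e := by
  classical
  refine ⟨fun i => if ∃ r ∈ F, ini r.1 (de i.unpair.1).length = de i.unpair.1 ∧
    ini r.2.1 (de i.unpair.1).length = de i.unpair.2.unpair.1 ∧
    ini r.2.2 (de i.unpair.1).length = de i.unpair.2.unpair.2 then 0 else 1, ?_⟩
  ext ⟨x, y, w⟩
  constructor
  · intro h n
    simp only [trip, Nat.unpair_pair, de_en, length_ini]
    rw [if_pos ⟨(x, y, w), h, rfl, rfl, rfl⟩]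
  · intro h
    refine mem_of_Tre hF fun n => ?_
    have h1 := h n
    simp only [trip, Nat.unpair_pair, de_en, length_ini] at h1
    by_contra hcon
    rw [if_neg] at h1
    · omega
    · rintro ⟨r, hr, h2, h3, h4⟩
      apply hcon
      refine ⟨r, hr, ?_, ?_, ?_⟩
      · rw [length_ini]; exact h2
      · rw [length_ini]; exact h3
      · rw [length_ini]; exact h4

theorem IsSigma12.preimage {α β : Type} [MeasurableSpace α] [MeasurableSpace β] {A : Set β}
    (hA : IsSigma12 A) {φ : α → β} (hφ : Measurable φ) : IsSigma12 (φ ⁻¹' A) := by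
  obtain ⟨R, hR, rfl⟩ := hA
  refine ⟨{r | (φ r.1, r.2.1, r.2.2) ∈ R}, ?_, rfl⟩
  exact ((hφ.comp measurable_fst).prodMk measurable_snd) hR

theorem exists_sigma12_not_pi12 : ∃ D : Set (ℕ → ℕ), IsSigma12 D ∧ ¬ IsSigma12 Dᶜ := by
  refine ⟨{e | ∃ y, ∀ w, (e, y, w) ∉ Fe e}, ?_, fun hcon => ?_⟩
  · refine ⟨{r | (r.1, r.2.1, r.2.2) ∉ Fe r.1}, ?_, rfl⟩
    refine MeasurableSet.compl
      (s := {r : (ℕ → ℕ) × (ℕ → ℕ) × (ℕ → ℕ) | (r.1, r.2.1, r.2.2) ∈ Fe r.1}) ?_
    have h0 : {r : (ℕ → ℕ) × (ℕ → ℕ) × (ℕ → ℕ) | (r.1, r.2.1, r.2.2) ∈ Fe r.1} =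
        ⋂ n, {r : (ℕ → ℕ) × (ℕ → ℕ) × (ℕ → ℕ) |
          r.1 (trip (ini r.1 n) (ini r.2.1 n) (ini r.2.2 n)) = 0} := by
      ext r
      simp only [mem_iInter]
      rfl
    rw [h0]
    refine MeasurableSet.iInter fun n => ?_
    have h1 : {r : (ℕ → ℕ) × (ℕ → ℕ) × (ℕ → ℕ) |
        r.1 (trip (ini r.1 n) (ini r.2.1 n) (ini r.2.2 n)) = 0} =
        ⋃ a : List ℕ, ⋃ b : List ℕ, ⋃ c : List ℕ, (({r | ini r.1 n = a} ∩ {r | ini r.2.1 n = b}) ∩
          {r | ini r.2.2 n = c}) ∩ {r | r.1 (trip a b c) = 0} := by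
      ext r
      simp only [mem_ofPred_eq, mem_iUnion, mem_inter_iff]
      constructor
      · intro h
        exact ⟨_, _, _, ⟨⟨rfl, rfl⟩, rfl⟩, h⟩
      · rintro ⟨a, b, c, ⟨⟨rfl, rfl⟩, rfl⟩, h⟩
        exact h
    rw [h1]
    refine MeasurableSet.iUnion fun a => MeasurableSet.iUnion fun b => MeasurableSet.iUnion
      fun c => ?_
    refine MeasurableSet.inter (((meas_ini_eq measurable_fst n a).inter
      (meas_ini_eq (measurable_fst.comp measurable_snd) n b)).inter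
      (meas_ini_eq (measurable_snd.comp measurable_snd) n c)) ?_
    exact ((measurable_pi_apply (X := fun _ : ℕ => ℕ) (trip a b c)).comp measurable_fst)
      (measurableSet_singleton 0)
  · obtain ⟨F, hF, h⟩ := normal_form_of_emb hcon (J := id) MeasurableEmbedding.id
    obtain ⟨e, rfl⟩ := exists_Fe hF
    have h1 := h e
    simp only [mem_compl_iff, mem_ofPred_eq, id] at h1
    tauto

/-- The relation is not `Π¹₂`, even on pairs of codes of star forests. -/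
theorem not_pi12 {X : Type} [MeasurableSpace X] [StandardBorelSpace X] (hX : ¬ Countable X)
    (U : ℕ → Set (X × X))
    (hU : (inferInstance : MeasurableSpace (X × X)) = MeasurableSpace.generateFrom (range U)) :
    ¬ ∃ N : Set ((ℕ → ℕ) × (ℕ → ℕ)), IsSigma12 N ∧ ∀ p, (∃ G H : SimpleGraph X,
      StarForest G ∧ StarForest H ∧ CodesGraph U p.1 G ∧ CodesGraph U p.2 H) →
        (p ∈ N ↔ p ∉ IsoCodes U) := by
  rintro ⟨N, hN, h⟩
  obtain ⟨D, hD, hD2⟩ := exists_sigma12_not_pi12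
  obtain ⟨φ, hφ, h1, h2⟩ := hard hX U hU hD
  apply hD2
  have h3 : Dᶜ = φ ⁻¹' N := by
    ext s
    rw [mem_compl_iff, mem_preimage, h (φ s) (h1 s), h2]
  rw [h3]
  exact hN.preimage hφ

end Pool.Agent.W923.BI
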